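import Mathlib

set_option autoImplicit false

namespace Pool.Agent.Helper234.NumMax

/-- `⌊(d-2)/h⌋+1`, for `d ≥ 1`, `h ≥ 1`. -/
def q (h d : ℕ) : ℕ := (d + h - 2) / h

theorem q_spec (h d : ℕ) (hh : 3 ≤ h) (hd : 1 ≤ d) :
    (2 ≤ d % h ∧ h * q h d + d % h = d + h) ∨ (d % h < 2 ∧ h * q h d + d % h = d) := by
  have h1 := Nat.div_add_mod d h
  have h2 := Nat.mod_lt d (show 0 < h by omega)
  unfold q
  rcases Nat.lt_or_ge (d % h) 2 with h3 | h3
  · right
    refine ⟨h3, ?_⟩
    have : (d + h - 2) / h = d / h := by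
      have e : d + h - 2 = (d % h + (h - 2)) + h * (d / h) := by omega
      rw [e, Nat.add_mul_div_left _ _ (by omega), Nat.div_eq_of_lt (by omega)]
      omega
    rw [this]; omega
  · left
    refine ⟨h3, ?_⟩
    have : (d + h - 2) / h = d / h + 1 := by
      have e : d + h - 2 = (d % h - 2) + h * (d / h + 1) := by
        rw [Nat.mul_add]; omega
      rw [e, Nat.add_mul_div_left _ _ (by omega), Nat.div_eq_of_lt (by omega)]
      omega
    rw [this, Nat.mul_add]; omega

theorem exists_prime (h : ℕ) (hh : 3 ≤ h) : ∀ d : ℕ, 2 ≤ d % h →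
    ∃ p, p.Prime ∧ p ∣ d ∧ 2 ≤ p % h := by
  intro d
  induction d using induction_on_primes with
  | zero => intro h1; simp at h1
  | one => intro h1; rw [Nat.mod_eq_of_lt (by omega)] at h1; omega
  | prime_mul p a hp ih =>
    intro h1
    by_cases h2 : 2 ≤ p % h
    · exact ⟨p, hp, Dvd.intro a rfl, h2⟩
    · have h3 : 2 ≤ a % h := by
        rw [Nat.mul_mod] at h1
        have h4 : p % h = 0 ∨ p % h = 1 := by omega
        rcases h4 with h4 | h4
        · rw [h4] at h1; simp at h1
        · rw [h4, one_mul, Nat.mod_mod] at h1; exact h1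
      obtain ⟨r, hr, hra, h5⟩ := ih h3
      exact ⟨r, hr, hra.mul_left p, h5⟩

/-- A divisor maximising `q h d / d`, in cross-multiplied form. -/
def IsMax (n h d : ℕ) : Prop := d ∣ n ∧ ∀ e, e ∣ n → q h e * d ≤ q h d * e

theorem isMax_res {n h d : ℕ} (hn : 1 ≤ n) (hh : 3 ≤ h) (hd : IsMax n h d)
    (hex : ∃ e, e ∣ n ∧ 2 ≤ e % h) : 2 ≤ d % h := by
  obtain ⟨e, hen, he⟩ := hex
  have he0 : 1 ≤ e := Nat.pos_of_dvd_of_pos hen hn
  have hd0 : 1 ≤ d := Nat.pos_of_dvd_of_pos hd.1 hn
  have h1 := hd.2 e hen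
  have h2 := Nat.mod_lt e (show 0 < h by omega)
  rcases q_spec h e hh he0 with ⟨_, h3⟩ | ⟨h3, _⟩
  · rcases q_spec h d hh hd0 with ⟨h4, _⟩ | ⟨h4, h5⟩
    · exact h4
    · exfalso
      have h6 : e + 1 ≤ h * q h e := by omega
      have h7 : h * q h d ≤ d := by omega
      have h8 : h * (q h e * d) ≤ h * (q h d * e) := Nat.mul_le_mul_left _ h1
      have h9 : (e + 1) * d ≤ (h * q h e) * d := Nat.mul_le_mul_right _ h6
      have h10 : (h * q h d) * e ≤ d * e := Nat.mul_le_mul_right _ h7
      nlinarith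
  · omega

/-- comparison of a maximiser with a prime divisor of good residue -/
theorem cmp {n h d p : ℕ} (hn : 1 ≤ n) (hh : 3 ≤ h) (hd : IsMax n h d) (hr : 2 ≤ d % h)
    (hp : p.Prime) (hpd : p ∣ n) (hpr : 2 ≤ p % h) :
    (h - p % h) * d ≤ (h - d % h) * p := by
  have hd0 : 1 ≤ d := Nat.pos_of_dvd_of_pos hd.1 hn
  have h1 := hd.2 p hpd
  have h2 := Nat.mod_lt p (show 0 < h by omega)
  have h3 := Nat.mod_lt d (show 0 < h by omega)
  rcases q_spec h p hh hp.pos with ⟨_, h4⟩ | ⟨h4, _⟩
  · rcases q_spec h d hh hd0 with ⟨_, h5⟩ | ⟨h5, _⟩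
    · have h6 : h * q h p = p + (h - p % h) := by omega
      have h7 : h * q h d = d + (h - d % h) := by omega
      have h8 : h * (q h p * d) ≤ h * (q h d * p) := Nat.mul_le_mul_left _ h1
      have h9 : (h * q h p) * d ≤ (h * q h d) * p := by
        calc (h * q h p) * d = h * (q h p * d) := by ring
          _ ≤ h * (q h d * p) := h8
          _ = _ := by ring
      rw [h6, h7] at h9
      have h10 : p * d + (h - p % h) * d ≤ d * p + (h - d % h) * p := by
        calc p * d + (h - p % h) * d = (p + (h - p % h)) * d := by ring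
          _ ≤ (d + (h - d % h)) * p := h9
          _ = _ := by ring
      rw [mul_comm p d] at h10
      omega
    · omega
  · omega

theorem isMax_prime {n h d : ℕ} (hn : 1 ≤ n) (hh : 3 ≤ h) (hd : IsMax n h d)
    (hex : ∃ e, e ∣ n ∧ 2 ≤ e % h) : d.Prime := by
  have hr := isMax_res hn hh hd hex
  have hd0 : 1 ≤ d := Nat.pos_of_dvd_of_pos hd.1 hn
  have hmd := Nat.mod_lt d (show 0 < h by omega)
  obtain ⟨p, hp, hpd, hpr⟩ := exists_prime h hh d hr
  by_contra hnp
  -- bound for a good prime divisor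
  have good : ∀ r, r.Prime → r ∣ d → 2 ≤ r % h → d / r ≤ h - 2 := by
    intro r hr1 hr2 hr3
    have h1 := cmp hn hh hd hr hr1 (hr2.trans hd.1) hr3
    have h2 := Nat.mod_lt r (show 0 < h by omega)
    obtain ⟨m, hm⟩ := hr2
    have hm' : d / r = m := by rw [hm]; exact Nat.mul_div_cancel_left m hr1.pos
    rw [hm']
    have h3 : (h - r % h) * d = ((h - r % h) * m) * r := by rw [hm]; ring
    rw [h3] at h1
    have h4 := Nat.le_of_mul_le_mul_right h1 hr1.pos
    have h5 : 1 * m ≤ (h - r % h) * m := Nat.mul_le_mul_right _ (by omega)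
    omega
  -- small prime divisors
  have small : ∀ r, r.Prime → r ∣ d → r ≤ h - 2 → (h - r) * (d / r) ≤ h - 2 := by
    intro r hr1 hr2 hr3
    have hrm : r % h = r := Nat.mod_eq_of_lt (by omega)
    have hr2' := hr1.two_le
    have h1 := hd.2 r (hr2.trans hd.1)
    have hq : q h r = 1 := by
      unfold q
      apply Nat.div_eq_of_lt_le <;> omega
    rw [hq, one_mul] at h1
    rcases q_spec h d hh hd0 with ⟨_, h5⟩ | ⟨h5, _⟩
    · have h7 : h * q h d = d + (h - d % h) := by omega
      have h8 : h * d ≤ (h * q h d) * r := by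
        calc h * d ≤ h * (q h d * r) := Nat.mul_le_mul_left _ h1
          _ = _ := by ring
      rw [h7] at h8
      have h9 : h * d ≤ d * r + (h - d % h) * r := by
        calc h * d ≤ (d + (h - d % h)) * r := h8
          _ = _ := by ring
      have h10 : (h - d % h) * r ≤ (h - 2) * r := Nat.mul_le_mul_right _ (by omega)
      have h11 : (h - r) * d ≤ (h - 2) * r := by
        have : (h - r) * d = h * d - d * r := by
          rw [Nat.sub_mul, mul_comm r d]
        rw [this]; omega
      obtain ⟨m, hm⟩ := hr2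
      have hm' : d / r = m := by rw [hm]; exact Nat.mul_div_cancel_left m hr1.pos
      rw [hm']
      have h3 : (h - r) * d = ((h - r) * m) * r := by rw [hm]; ring
      rw [h3] at h11
      exact Nat.le_of_mul_le_mul_right h11 hr1.pos
    · omega
  have hm1 := good p hp hpd hpr
  obtain ⟨m, hm⟩ := hpd
  have hmm : d / p = m := by rw [hm]; exact Nat.mul_div_cancel_left m hp.pos
  rw [hmm] at hm1
  have hm0 : m ≠ 1 := by
    rintro rfl
    apply hnp
    rw [hm, mul_one]; exact hp
  have hmpos : 0 < m := by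
    rcases Nat.eq_zero_or_pos m with rfl | h0
    · rw [mul_zero] at hm; omega
    · exact h0
  obtain ⟨a, ha, ham⟩ := Nat.exists_prime_and_dvd hm0
  have had : a ∣ d := by rw [hm]; exact ham.mul_left p
  have hale : a ≤ m := Nat.le_of_dvd hmpos ham
  have ha2 := ha.two_le
  have hamod : a % h = a := Nat.mod_eq_of_lt (by omega)
  have hsa := small a ha had (by omega)
  have hga := good a ha had (by omega)
  -- m' = d / a
  obtain ⟨m', hm'⟩ := had
  have hmm' : d / a = m' := by rw [hm']; exact Nat.mul_div_cancel_left m' ha.pos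
  rw [hmm'] at hsa hga
  have hm'pos : 0 < m' := by
    rcases Nat.eq_zero_or_pos m' with rfl | h0
    · rw [mul_zero] at hm'; omega
    · exact h0
  have hm'1 : m' ≠ 1 := by
    rintro rfl
    rw [mul_one] at hm'
    exact hnp (hm' ▸ ha)
  obtain ⟨b, hb, hbm⟩ := Nat.exists_prime_and_dvd hm'1
  have hbd : b ∣ d := by rw [hm']; exact hbm.mul_left a
  have hble : b ≤ m' := Nat.le_of_dvd hm'pos hbm
  have hb2 := hb.two_le
  have hsb := small b hb hbd (by omega)
  -- a ≤ d / b
  have hadb : a ≤ d / b := by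
    rw [Nat.le_div_iff_mul_le hb.pos, hm']
    exact Nat.mul_le_mul_left _ hble
  have e1 : (h - a) * b ≤ h - 2 := le_trans (Nat.mul_le_mul_left _ hble) hsa
  have e2 : (h - b) * a ≤ h - 2 := le_trans (Nat.mul_le_mul_left _ hadb) hsb
  have e3 : (h - b) * 2 ≤ h - 2 := le_trans (Nat.mul_le_mul_left _ ha2) e2
  have e4 : 2 * b ≤ (h - a) * b := Nat.mul_le_mul_right _ (by omega)
  omega

theorem isMax_unique {n h d e : ℕ} (hn : 1 ≤ n) (hh : 3 ≤ h) (hd : IsMax n h d)
    (he : IsMax n h e) (hex : ∃ e, e ∣ n ∧ 2 ≤ e % h) : d = e := by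
  have hdp := isMax_prime hn hh hd hex
  have hep := isMax_prime hn hh he hex
  have hdr := isMax_res hn hh hd hex
  have her := isMax_res hn hh he hex
  have h1 := cmp hn hh hd hdr hep he.1 her
  have h2 := cmp hn hh he her hdp hd.1 hdr
  have hmd := Nat.mod_lt d (show 0 < h by omega)
  have hme := Nat.mod_lt e (show 0 < h by omega)
  by_contra hne
  have h3 : (h - e % h) * d = (h - d % h) * e := le_antisymm h1 h2
  have hcop : Nat.Coprime d e := (Nat.coprime_primes hdp hep).mpr hne
  have h4 : d ∣ (h - d % h) := by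
    have : d ∣ (h - d % h) * e := ⟨h - e % h, by rw [← h3]; ring⟩
    exact hcop.dvd_of_dvd_mul_right this
  have h5 : e ∣ (h - e % h) := by
    have : e ∣ (h - e % h) * d := ⟨h - d % h, by rw [h3]; ring⟩
    exact hcop.symm.dvd_of_dvd_mul_right this
  have h6 := Nat.le_of_dvd (by omega) h4
  have h7 := Nat.le_of_dvd (by omega) h5
  have h8 : d % h = d := Nat.mod_eq_of_lt (by omega)
  have h9 : e % h = e := Nat.mod_eq_of_lt (by omega)
  rw [h8, h9] at h3
  have h10 : (h - e) * d = h * d - e * d := Nat.sub_mul _ _ _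
  have h11 : (h - d) * e = h * e - d * e := Nat.sub_mul _ _ _
  have h12 : e * d ≤ h * d := Nat.mul_le_mul_right _ (by omega)
  have h13 : d * e ≤ h * e := Nat.mul_le_mul_right _ (by omega)
  have h14 : h * d = h * e := by
    rw [h10, h11, mul_comm e d] at h3
    rw [mul_comm e d] at h12
    omega
  exact hne (Nat.eq_of_mul_eq_mul_left (by omega) h14)

end Pool.Agent.Helper234.NumMax
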