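import Mathlib

set_option autoImplicit false

/-! Vosper's theorem in `ZMod p` (exit-count form). -/

open scoped Pointwise
open Finset

namespace Pool.Agent.Helper234.Vosper

variable {p : ℕ} [hp : Fact p.Prime]

/-- number of exits of `S` in direction `g` -/
def E (g : ZMod p) (S : Finset (ZMod p)) : ℕ := (S.filter (fun x => x + g ∉ S)).card

theorem cd (A B : Finset (ZMod p)) (hA : A.Nonempty) (hB : B.Nonempty) :
    min p (A.card + B.card - 1) ≤ (A + B).card :=
  ZMod.cauchy_davenport hp.out hA hB

theorem E_compl (g : ZMod p) (S : Finset (ZMod p)) : E g Sᶜ = E g S := by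
  classical
  unfold E
  have h1 : (S.filter (fun x => x + g ∈ S)).card + (S.filter (fun x => x + g ∉ S)).card = S.card :=
    Finset.card_filter_add_card_filter_not (s := S) (fun x => x + g ∈ S)
  have h2 : (univ.filter (fun x => x + g ∈ S)).card = S.card := by
    apply Finset.card_bij (fun x _ => x + g)
    · intro a ha; simpa using ha
    · intro a _ b _ h; exact add_right_cancel h
    · intro b hb; exact ⟨b - g, by simpa using hb, by simp⟩
  have h3 : (univ.filter (fun x => x + g ∈ S)) =
      (S.filter (fun x => x + g ∈ S)) ∪ (Sᶜ.filter (fun x => x + g ∉ Sᶜ)) := by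
    ext x; simp only [mem_filter, mem_univ, true_and, mem_union, mem_compl, not_not]
    tauto
  have h4 : Disjoint (S.filter (fun x => x + g ∈ S)) (Sᶜ.filter (fun x => x + g ∉ Sᶜ)) := by
    rw [Finset.disjoint_left]
    intro x hx hx'
    simp only [mem_filter, mem_compl] at hx hx'
    exact hx'.1 hx.1
  rw [h3, card_union_of_disjoint h4] at h2
  omega

theorem E_neg (g : ZMod p) (S : Finset (ZMod p)) : E g (-S) = E g S := by
  classical
  rw [← E_compl g S]
  unfold E
  apply Finset.card_bij (fun x _ => -(x + g))
  · intro a ha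
    simp only [mem_filter, Finset.mem_neg', mem_compl, not_not] at ha ⊢
    refine ⟨ha.2, ?_⟩
    have : -(a + g) + g = -a := by ring
    rw [this]; exact ha.1
  · intro a _ b _ h
    have := neg_injective h
    exact add_right_cancel this
  · intro b hb
    refine ⟨-(b + g), ?_, by ring⟩
    simp only [mem_filter, Finset.mem_neg', mem_compl, not_not] at hb ⊢
    refine ⟨by simpa using hb.2, ?_⟩
    have : -(-(b + g) + g) = b := by ring
    rw [this]; exact hb.1

/-- `S + {0,g}` in terms of exits. -/
theorem card_add_pair (g : ZMod p) (S : Finset (ZMod p)) :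
    (S + {0, g}).card = S.card + E g S := by
  classical
  unfold E
  have : S + {0, g} = S ∪ ((S.filter (fun x => x + g ∉ S)).image (fun x => x + g)) := by
    ext x
    simp only [mem_add, mem_insert, mem_singleton, mem_union, mem_image, mem_filter]
    constructor
    · rintro ⟨y, hy, z, hz, rfl⟩
      rcases hz with rfl | rfl
      · left; simpa using hy
      · by_cases h : y + z ∈ S
        · left; exact h
        · right; exact ⟨y, ⟨hy, h⟩, rfl⟩
    · rintro (h | ⟨y, ⟨hy, _⟩, rfl⟩)
      · exact ⟨x, h, 0, Or.inl rfl, by simp⟩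
      · exact ⟨y, hy, g, Or.inr rfl, rfl⟩
  rw [this, card_union_of_disjoint, card_image_of_injective _ (add_left_injective g)]
  rw [Finset.disjoint_left]
  intro x hx hx'
  simp only [mem_image, mem_filter] at hx'
  obtain ⟨y, ⟨_, hy⟩, rfl⟩ := hx'
  exact hy hx

/-- If `A` is a chain, the pair is critical, then `B` is a chain. -/
theorem step1 (A B : Finset (ZMod p)) (g : ZMod p) (hA : 2 ≤ A.card) (hB : B.Nonempty)
    (hE : E g A ≤ 1) (hc : (A + B).card + 1 ≤ A.card + B.card) (hlt : (A + B).card < p) :
    E g B ≤ 1 := by
  classical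
  set A' := A.filter (fun x => x + g ∈ A) with hA'
  have h1 : A'.card + E g A = A.card :=
    Finset.card_filter_add_card_filter_not (s := A) (fun x => x + g ∈ A)
  have h2 : A'.Nonempty := by
    rw [← Finset.card_pos]; omega
  have h3 : A' + (B + {0, g}) ⊆ A + B := by
    intro x hx
    obtain ⟨a, ha, y, hy, rfl⟩ := mem_add.mp hx
    obtain ⟨b, hb, z, hz, rfl⟩ := mem_add.mp hy
    rw [mem_filter] at ha
    rw [mem_insert, mem_singleton] at hz
    rcases hz with rfl | rfl
    · rw [add_zero]; exact add_mem_add ha.1 hb
    · have : a + (b + z) = (a + z) + b := by ring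
      rw [this]; exact add_mem_add ha.2 hb
  have h4 := card_le_card h3
  have h5 := cd A' (B + {0, g}) h2 (hB.add ⟨0, by simp⟩)
  rw [card_add_pair] at h5
  have h6 := h2.card_pos
  have h7 := hB.card_pos
  omega

theorem E_add (X Y : Finset (ZMod p)) (g : ZMod p) (hX : E g X ≤ 1) (hY : E g Y ≤ 1) :
    E g (X + Y) ≤ 1 := by
  classical
  unfold E at *
  rw [Finset.card_le_one] at *
  intro a ha b hb
  rw [mem_filter] at ha hb
  obtain ⟨ha1, ha2⟩ := ha
  obtain ⟨hb1, hb2⟩ := hb
  obtain ⟨x1, hx1, y1, hy1, rfl⟩ := mem_add.mp ha1
  obtain ⟨x2, hx2, y2, hy2, rfl⟩ := mem_add.mp hb1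
  have e1 : x1 + g ∉ X := fun h => ha2 (by
    have : x1 + y1 + g = (x1 + g) + y1 := by ring
    rw [this]; exact add_mem_add h hy1)
  have e2 : x2 + g ∉ X := fun h => hb2 (by
    have : x2 + y2 + g = (x2 + g) + y2 := by ring
    rw [this]; exact add_mem_add h hy2)
  have e3 : y1 + g ∉ Y := fun h => ha2 (by
    have : x1 + y1 + g = x1 + (y1 + g) := by ring
    rw [this]; exact add_mem_add hx1 h)
  have e4 : y2 + g ∉ Y := fun h => hb2 (by
    have : x2 + y2 + g = x2 + (y2 + g) := by ring
    rw [this]; exact add_mem_add hx2 h)
  rw [hX x1 (mem_filter.mpr ⟨hx1, e1⟩) x2 (mem_filter.mpr ⟨hx2, e2⟩),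
    hY y1 (mem_filter.mpr ⟨hy1, e3⟩) y2 (mem_filter.mpr ⟨hy2, e4⟩)]

/-- If `A + B` is a chain (and `|A+B| ≤ p-2`), so are `A` and `B`. -/
theorem step2 (A B : Finset (ZMod p)) (g : ZMod p) (hA : 2 ≤ A.card) (hB : B.Nonempty)
    (hE : E g (A + B) ≤ 1) (hc : (A + B).card + 1 ≤ A.card + B.card)
    (hlt : (A + B).card + 2 ≤ p) :
    E g A ≤ 1 ∧ E g B ≤ 1 := by
  classical
  have hAn : A.Nonempty := by rw [← card_pos]; omega
  have hD : ((A + B)ᶜ).card = p - (A + B).card := by
    rw [card_compl, ZMod.card]
  have hsub : (A + B)ᶜ + (-A) ⊆ Bᶜ := by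
    intro x hx
    obtain ⟨d, hd, a, ha, rfl⟩ := mem_add.mp hx
    rw [mem_compl] at hd ⊢
    rw [Finset.mem_neg'] at ha
    intro hb
    apply hd
    have : d = -a + (d + a) := by ring
    rw [this]; exact add_mem_add ha hb
  have h1 := card_le_card hsub
  have h2 : (Bᶜ).card = p - B.card := by rw [card_compl, ZMod.card]
  have h3 : (-A).card = A.card := Finset.card_neg A
  have hBp : B.card ≤ p := by
    have := Finset.card_le_univ B; rwa [ZMod.card] at this
  have hBpos := hB.card_pos
  have hEA : E g (-A) ≤ 1 := by
    apply step1 ((A + B)ᶜ) (-A) g (by omega) (hAn.neg) (by rw [E_compl]; exact hE)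
    · omega
    · omega
  rw [E_neg] at hEA
  exact ⟨hEA, step1 A B g hA hB hEA hc (by omega)⟩

/-- **Vosper's theorem**, exit-count form. -/
theorem vosper (n : ℕ) : ∀ (A B : Finset (ZMod p)), B.card = n → 2 ≤ A.card → 2 ≤ B.card →
    (A + B).card + 1 ≤ A.card + B.card → (A + B).card + 2 ≤ p →
    ∃ g : ZMod p, g ≠ 0 ∧ E g A ≤ 1 ∧ E g B ≤ 1 := by
  classical
  induction n using Nat.strong_induction_on with
  | _ n ih =>
  intro A B hn hA hB hc hlt
  have hAn : A.Nonempty := by rw [← card_pos]; omega
  have hBn : B.Nonempty := by rw [← card_pos]; omega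
  by_cases h2 : B.card = 2
  · obtain ⟨b0, b1, hne, hB2⟩ := Finset.card_eq_two.mp h2
    refine ⟨b1 - b0, sub_ne_zero.mpr hne.symm, ?_, ?_⟩
    · have e1 : (A + {0, b1 - b0}).card = (A + B).card := by
        have : A + B = (A + {0, b1 - b0}).image (fun x => x + b0) := by
          ext x
          simp only [mem_image, mem_add, hB2, mem_insert, mem_singleton]
          constructor
          · rintro ⟨a, ha, b, hb, rfl⟩
            rcases hb with rfl | rfl
            · exact ⟨a, ⟨a, ha, 0, Or.inl rfl, by ring⟩, rfl⟩
            · exact ⟨a + (b - b0), ⟨a, ha, b - b0, Or.inr rfl, rfl⟩, by ring⟩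
          · rintro ⟨y, ⟨a, ha, z, hz, rfl⟩, rfl⟩
            rcases hz with rfl | rfl
            · exact ⟨a, ha, b0, Or.inl rfl, by ring⟩
            · exact ⟨a, ha, b1, Or.inr rfl, by ring⟩
        rw [this, card_image_of_injective _ (add_left_injective b0)]
      rw [card_add_pair] at e1
      omega
    · have : E (b1 - b0) B ≤ ({b1} : Finset (ZMod p)).card := by
        apply card_le_card
        intro x hx
        rw [mem_filter, hB2] at hx
        simp only [mem_insert, mem_singleton] at hx ⊢
        rcases hx.1 with rfl | h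
        · exact absurd (Or.inr (by ring)) hx.2
        · exact h
      simpa using this
  · have h3 : 3 ≤ B.card := by omega
    obtain ⟨b0, hb0⟩ := hBn
    by_cases hex : ∃ e ∈ A, 2 ≤ (B.filter (fun b => b + (e - b0) ∈ A)).card ∧
        (B.filter (fun b => b + (e - b0) ∈ A)).card < B.card
    · obtain ⟨e, he, hl, hu⟩ := hex
      set t := e - b0 with ht
      set B1 := B.filter (fun b => b + t ∈ A) with hB1
      set A1 := A ∪ (B.filter (fun b => b + t ∉ A)).image (fun b => b + t) with hA1
      have hcB : B1.card + (B.filter (fun b => b + t ∉ A)).card = B.card :=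
        Finset.card_filter_add_card_filter_not (s := B) (fun b => b + t ∈ A)
      have hcA : A1.card = A.card + (B.filter (fun b => b + t ∉ A)).card := by
        rw [hA1, card_union_of_disjoint, card_image_of_injective _ (add_left_injective t)]
        rw [Finset.disjoint_left]
        intro x hx hx'
        simp only [mem_image, mem_filter] at hx'
        obtain ⟨y, ⟨_, hy⟩, rfl⟩ := hx'
        exact hy hx
      have hsub : A1 + B1 ⊆ A + B := by
        intro x hx
        obtain ⟨a, ha, b, hb, rfl⟩ := mem_add.mp hx
        rw [hB1, mem_filter] at hb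
        rw [hA1, mem_union, mem_image] at ha
        rcases ha with ha | ⟨b', hb', rfl⟩
        · exact add_mem_add ha hb.1
        · rw [mem_filter] at hb'
          have : b' + t + b = (b + t) + b' := by ring
          rw [this]; exact add_mem_add hb.2 hb'.1
      have hle := card_le_card hsub
      have hB1n : B1.Nonempty := by rw [← card_pos]; omega
      have hA1n : A1.Nonempty := by rw [← card_pos]; omega
      have hcd := cd A1 B1 hA1n hB1n
      have heq : A1 + B1 = A + B := by
        apply Finset.eq_of_subset_of_card_le hsub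
        omega
      obtain ⟨g, hg, g1, g2⟩ := ih B1.card (by omega) A1 B1 rfl (by omega) hl
        (by rw [heq]; omega) (by rw [heq]; omega)
      have := E_add A1 B1 g g1 g2
      rw [heq] at this
      exact ⟨g, hg, step2 A B g hA ⟨b0, hb0⟩ this hc hlt⟩
    · exfalso
      push Not at hex
      set Z := A.filter (fun e => (B.filter (fun b => b + (e - b0) ∈ A)).card ≤ 1) with hZ
      set Y := A.filter (fun e => ¬ (B.filter (fun b => b + (e - b0) ∈ A)).card ≤ 1) with hY
      have hYZ : Z.card + Y.card = A.card :=
        Finset.card_filter_add_card_filter_not (s := A)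
          (fun e => (B.filter (fun b => b + (e - b0) ∈ A)).card ≤ 1)
      -- Y + B - b0 ⊆ A
      have hYB : Y + B ⊆ A.image (fun a => a + b0) := by
        intro x hx
        obtain ⟨e, he, b, hb, rfl⟩ := mem_add.mp hx
        rw [hY, mem_filter] at he
        have h1 := hex e he.1 (by omega)
        have h2 : B.filter (fun b => b + (e - b0) ∈ A) = B :=
          Finset.eq_of_subset_of_card_le (filter_subset _ _) h1
        rw [← h2, mem_filter] at hb
        rw [mem_image]
        exact ⟨b + (e - b0), hb.2, by ring⟩
      have hYBc := card_le_card hYB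
      rw [card_image_of_injective _ (add_left_injective b0)] at hYBc
      -- Z part
      have hZB : Disjoint (Z + B.erase b0) (A.image (fun a => a + b0)) := by
        rw [Finset.disjoint_left]
        intro x hx hx'
        obtain ⟨e, he, b, hb, rfl⟩ := mem_add.mp hx
        rw [mem_erase] at hb
        rw [mem_image] at hx'
        obtain ⟨a, ha, hab⟩ := hx'
        rw [hZ, mem_filter] at he
        have h1 := Finset.card_le_one.mp he.2 b0
          (mem_filter.mpr ⟨hb0, by simpa using he.1⟩) b
          (mem_filter.mpr ⟨hb.2, by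
            have : b + (e - b0) = a := by
              have : a = e + b - b0 := by rw [← hab]; ring
              rw [this]; ring
            rw [this]; exact ha⟩)
        exact hb.1 h1.symm
      have hsub2 : (Z + B.erase b0) ∪ (A.image (fun a => a + b0)) ⊆ A + B := by
        apply union_subset
        · exact add_subset_add (filter_subset _ _) (erase_subset _ _)
        · intro x hx
          rw [mem_image] at hx
          obtain ⟨a, ha, rfl⟩ := hx
          exact add_mem_add ha hb0
      have hle2 := card_le_card hsub2
      rw [card_union_of_disjoint hZB, card_image_of_injective _ (add_left_injective b0)] at hle2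
      have hBe : (B.erase b0).card = B.card - 1 := card_erase_of_mem hb0
      have hBen : (B.erase b0).Nonempty := by rw [← card_pos]; omega
      have hAB : A.card ≤ (A + B).card := by
        have : A.image (fun a => a + b0) ⊆ A + B := fun x hx => hsub2 (mem_union_right _ hx)
        have := card_le_card this
        rwa [card_image_of_injective _ (add_left_injective b0)] at this
      have hZ1 : Z.card ≤ 1 := by
        by_contra hcon
        have hZn : Z.Nonempty := by rw [← card_pos]; omega
        have := cd Z (B.erase b0) hZn hBen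
        omega
      have hYn : Y.Nonempty := by rw [← card_pos]; omega
      have := cd Y B hYn ⟨b0, hb0⟩
      omega

/-- explicit progression form of a chain. -/
theorem chain_explicit (g : ZMod p) (hg : g ≠ 0) (k : ℕ) : ∀ (S : Finset (ZMod p)), S.card = k →
    1 ≤ k → k < p → E g S ≤ 1 → ∃ c : ZMod p, S = (range k).image (fun i : ℕ => c + (i : ZMod p) * g) := by
  classical
  induction k with
  | zero => intro S _ h; omega
  | succ k ih =>
    intro S hS _ hk hE
    rcases Nat.eq_zero_or_pos k with rfl | hkpos
    · obtain ⟨c, hc⟩ := card_eq_one.mp hS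
      exact ⟨c, by rw [hc]; simp⟩
    · -- there is an exit
      have hSn : S.Nonempty := by rw [← card_pos]; omega
      have hEpos : 0 < E g S := by
        by_contra h0
        have h0 : E g S = 0 := by omega
        have h1 := cd S {0, g} hSn ⟨0, by simp⟩
        rw [card_add_pair, card_pair hg.symm] at h1
        omega
      obtain ⟨e, he⟩ := card_pos.mp hEpos
      have huniq : ∀ x ∈ S, x + g ∉ S → x = e := by
        intro x hx hx'
        exact Finset.card_le_one.mp hE x (mem_filter.mpr ⟨hx, hx'⟩) e he
      rw [mem_filter] at he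
      have hE' : E g (S.erase e) ≤ 1 := by
        have : E g (S.erase e) ≤ ({e - g} : Finset (ZMod p)).card := by
          apply card_le_card
          intro x hx
          rw [mem_filter, mem_erase] at hx
          rw [mem_singleton]
          obtain ⟨⟨hxe, hxS⟩, hx2⟩ := hx
          by_contra hne
          apply hx2
          rw [mem_erase]
          refine ⟨fun h => hne (by rw [← h]; ring), ?_⟩
          by_contra h
          exact hxe (huniq x hxS h)
        simpa using this
      obtain ⟨c, hc⟩ := ih (S.erase e) (by rw [card_erase_of_mem he.1, hS]; rfl) hkpos (by omega) hE'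
      refine ⟨c, ?_⟩
      have hnot : c + (k : ZMod p) * g ∉ S.erase e := by
        rw [hc, mem_image]
        rintro ⟨i, hi, hi2⟩
        rw [mem_range] at hi
        have h1 : ((i : ℕ) : ZMod p) = (k : ℕ) := by
          have := add_left_cancel hi2
          exact mul_right_cancel₀ hg this
        rw [ZMod.natCast_eq_natCast_iff'] at h1
        rw [Nat.mod_eq_of_lt (by omega), Nat.mod_eq_of_lt (by omega)] at h1
        omega
      have hlast : c + ((k - 1 : ℕ) : ZMod p) * g ∈ S.erase e := by
        rw [hc, mem_image]
        exact ⟨k - 1, by rw [mem_range]; omega, rfl⟩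
      have hnext : c + ((k - 1 : ℕ) : ZMod p) * g + g = c + (k : ZMod p) * g := by
        have : ((k - 1 : ℕ) : ZMod p) = (k : ZMod p) - 1 := by
          rw [Nat.cast_sub hkpos]; simp
        rw [this]; ring
      rw [mem_erase] at hlast
      have hin : c + (k : ZMod p) * g ∈ S := by
        by_contra h
        rw [← hnext] at h
        exact hlast.1 (huniq _ hlast.2 h)
      have hek : c + (k : ZMod p) * g = e := by
        by_contra h
        exact hnot (mem_erase.mpr ⟨h, hin⟩)
      rw [range_add_one, image_insert, ← hc, hek, insert_erase he.1]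

/-- Multi-fold growth for a set which is not a progression. -/
theorem growth (B : Finset (ZMod p)) (hB : 2 ≤ B.card) (hnot : ∀ g : ZMod p, g ≠ 0 → ¬ E g B ≤ 1)
    (j : ℕ) (hj : 1 ≤ j) : min (p - 1) (j * B.card) ≤ (j • B).card := by
  classical
  have hBn : B.Nonempty := by rw [← card_pos]; omega
  induction j, hj using Nat.le_induction with
  | base => rw [one_nsmul]; omega
  | succ j hj ih =>
    have hjn : (j • B).Nonempty := hBn.nsmul
    rw [succ_nsmul]
    have h1 := cd (j • B) B hjn hBn
    have h2 : B.card ≤ (j • B).card := by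
      by_cases h : p - 1 ≤ j * B.card
      · rw [min_eq_left h] at ih
        have hBp : B.card ≤ p := by
          have := Finset.card_le_univ B; rwa [ZMod.card] at this
        by_cases hBB : B.card = p
        · have : B = univ := by rw [← card_eq_iff_eq_univ, hBB, ZMod.card]
          exfalso
          apply hnot 1 one_ne_zero
          rw [this]; unfold E; simp
        · omega
      · rw [min_eq_right (by omega)] at ih
        calc B.card = 1 * B.card := by ring
          _ ≤ j * B.card := Nat.mul_le_mul_right _ hj
          _ ≤ _ := ih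
    by_contra hcon
    rw [not_le, lt_min_iff] at hcon
    have h3 : (j + 1) * B.card = j * B.card + B.card := by ring
    have h4 : (j • B + B).card + 1 ≤ (j • B).card + B.card := by
      by_cases h : p - 1 ≤ j * B.card
      · rw [min_eq_left h] at ih; omega
      · rw [min_eq_right (by omega)] at ih; omega
    obtain ⟨g, hg, _, h5⟩ := vosper B.card (j • B) B rfl (by omega) hB h4 (by omega)
    exact hnot g hg h5

/-- Key lemma in `ZMod p`. -/
theorem key (B : Finset (ZMod p)) (h : ℕ) (hh : 2 ≤ h) (hk : p + 1 ≤ h * B.card)
    (hne : h • B ≠ univ) :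
    ∃ (g c : ZMod p), g ≠ 0 ∧ B = (range B.card).image (fun i : ℕ => c + (i : ZMod p) * g) := by
  classical
  have hp1 := hp.out.one_lt
  have hBn : B.Nonempty := by
    rw [← card_pos]; rcases Nat.eq_zero_or_pos B.card with h0 | h0
    · rw [h0] at hk; omega
    · exact h0
  have hBpos := hBn.card_pos
  by_cases h1 : B.card = 1
  · obtain ⟨c, hc⟩ := card_eq_one.mp h1
    exact ⟨1, c, one_ne_zero, by rw [hc]; simp⟩
  have hlt : B.card < p := by
    have hBp : B.card ≤ p := by
      have := Finset.card_le_univ B; rwa [ZMod.card] at this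
    rcases Nat.lt_or_ge B.card p with h2 | h2
    · exact h2
    · exfalso
      have : B = univ := by rw [← card_eq_iff_eq_univ, ZMod.card]; omega
      apply hne
      rw [← card_eq_iff_eq_univ, ZMod.card]
      have h3 : B.card ≤ (h • B).card := by
        obtain ⟨j, rfl⟩ : ∃ j, h = j + 1 := ⟨h - 1, by omega⟩
        rw [succ_nsmul]
        exact Finset.card_le_card_add_left (hBn.nsmul)
      have h4 := Finset.card_le_univ (h • B)
      rw [ZMod.card] at h4
      omega
  by_cases hnot : ∀ g : ZMod p, g ≠ 0 → ¬ E g B ≤ 1
  · exfalso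
    apply hne
    rw [← card_eq_iff_eq_univ, ZMod.card]
    have h4 := Finset.card_le_univ (h • B)
    rw [ZMod.card] at h4
    obtain ⟨j, rfl⟩ : ∃ j, h = j + 1 := ⟨h - 1, by omega⟩
    have h5 := growth B (by omega) hnot j (by omega)
    have h6 := cd (j • B) B hBn.nsmul hBn
    rw [← succ_nsmul] at h6
    have h7 : (j + 1) * B.card = j * B.card + B.card := by ring
    by_cases h : p - 1 ≤ j * B.card
    · rw [min_eq_left h] at h5; omega
    · rw [min_eq_right (by omega)] at h5; omega
  · push Not at hnot
    obtain ⟨g, hg, hE⟩ := hnot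
    obtain ⟨c, hc⟩ := chain_explicit g hg B.card B rfl hBpos hlt hE
    exact ⟨g, c, hg, hc⟩

end Pool.Agent.Helper234.Vosper
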