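import Mathlib
import Pool.Agent.Helper549.Kneser
import Pool.Agent.Helper234.Vosper
import Pool.Agent.Helper234.NumMax

set_option autoImplicit false

open scoped Pointwise
open Finset

namespace Pool.Agent.Helper234.NonSpanning

open Pool.Agent.Helper549.Kneser Pool.Agent.Helper234.NumMax

section kn
variable {G : Type*} [AddCommGroup G] [Fintype G] [DecidableEq G]

theorem fs_add_fs (H : AddSubgroup G) : fs H + fs H = fs H := by
  apply add_fs_stab
  intro g hg x
  rw [mem_fs, mem_fs]
  exact ⟨fun hx => H.add_mem hx hg, fun hx => by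
    have := H.sub_mem hx hg
    rwa [add_sub_cancel_right] at this⟩

theorem stab_le_stab_add (V W : Finset G) : stab W ≤ stab (V + W) := by
  intro g hg
  apply mem_stab_of_forall
  intro x hx
  obtain ⟨v, hv, w, hw, rfl⟩ := mem_add.mp hx
  rw [add_assoc]
  exact add_mem_add hv (stab_add hg hw)

/-- iterated Kneser -/
theorem iter (A : Finset G) (hA : A.Nonempty) (h : ℕ) (H : AddSubgroup G)
    (hH : H = stab (h • A)) (j : ℕ) (hj : 1 ≤ j) (hjh : j ≤ h) :
    j * (A + fs H).card + (fs H).card ≤ (j • A + fs H).card + j * (fs H).card := by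
  induction j, hj using Nat.le_induction with
  | base => simp
  | succ j hj ih =>
    have ih := ih (by omega)
    have e1 : (j • A + fs H) + (A + fs H) = (j + 1) • A + fs H := by
      rw [add_add_add_comm, fs_add_fs, succ_nsmul]
    have h1 := kneser (j • A + fs H) (A + fs H) ((hA.nsmul).add (fs_nonempty H))
      (hA.add (fs_nonempty H))
    rw [e1] at h1
    have h2 : stab ((j + 1) • A + fs H) ≤ H := by
      have e2 : (h - (j + 1)) • A + ((j + 1) • A + fs H) = h • A := by
        rw [← add_assoc, ← add_nsmul, Nat.sub_add_cancel hjh]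
        exact add_fs_stab _ _ (le_of_eq hH)
      have := stab_le_stab_add ((h - (j + 1)) • A) ((j + 1) • A + fs H)
      rw [e2, ← hH] at this
      exact this
    have h3 := card_le_card (fs_mono h2)
    have e3 : (j + 1) * (A + fs H).card = j * (A + fs H).card + (A + fs H).card := by ring
    have e4 : (j + 1) * (fs H).card = j * (fs H).card + (fs H).card := by ring
    omega

end kn

section preim
variable {G Q : Type*} [AddCommGroup G] [Fintype G] [DecidableEq G] [AddCommGroup Q]
  [DecidableEq Q]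

theorem card_preim (φ : G →+ Q) (T : Finset Q) (hT : ∀ t ∈ T, ∃ x, φ x = t) :
    (univ.filter (fun x => φ x ∈ T)).card = T.card * (univ.filter (fun x => φ x = 0)).card := by
  rw [Finset.card_eq_sum_card_fiberwise (f := φ) (s := univ.filter (fun x => φ x ∈ T)) (t := T)
    (fun x hx => by simpa using hx)]
  rw [Finset.sum_const_nat (m := (univ.filter (fun x => φ x = 0)).card)]
  intro t ht
  obtain ⟨x0, hx0⟩ := hT t ht
  apply Finset.card_bij (fun x _ => x - x0)
  · intro a ha
    simp only [mem_filter, mem_univ, true_and] at ha ⊢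
    rw [map_sub, ha.2, hx0, sub_self]
  · intro a _ b _ hab
    exact sub_left_injective hab
  · intro b hb
    simp only [mem_filter, mem_univ, true_and] at hb
    refine ⟨b + x0, ?_, by simp⟩
    simp only [mem_filter, mem_univ, true_and]
    rw [map_add, hb, zero_add, hx0]
    exact ⟨ht, rfl⟩

/-- A set stable under `ker φ` is a full preimage. -/
theorem preim_eq (φ : G →+ Q) (W : Finset G) (hW : ∀ x, φ x = 0 → x ∈ stab W) :
    univ.filter (fun x => φ x ∈ W.image φ) = W := by
  ext x
  simp only [mem_filter, mem_univ, true_and, mem_image]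
  constructor
  · rintro ⟨y, hy, hyx⟩
    have h1 : φ (x - y) = 0 := by rw [map_sub, hyx, sub_self]
    have := stab_add (hW _ h1) hy
    simpa using this
  · intro hx
    exact ⟨x, hx, rfl⟩

end preim

/-- The set of all sums of `h` elements of `A`, repetitions allowed. -/
def hfold {G : Type*} [AddCommGroup G] (h : ℕ) (A : Finset G) : Set G :=
  {x | ∃ f : Fin h → G, (∀ i, f i ∈ A) ∧ ∑ i, f i = x}

/-- `v_1(n,h) = max {(⌊(d-2)/h⌋+1)·(n/d) : d ∣ n}` (floor of the integer quotient, so the term
of `d = 1` is `0`). -/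
def v1 (n h : ℕ) : ℕ :=
  n.divisors.sup fun d => ((((d : ℤ) - 2) / (h : ℤ)) + 1).toNat * (n / d)

theorem floor_eq (h d : ℕ) (hh : 3 ≤ h) (hd : 1 ≤ d) :
    ((((d : ℤ) - 2) / (h : ℤ)) + 1).toNat = q h d := by
  unfold q
  have h1 : (((d : ℤ) - 2) / (h : ℤ)) + 1 = ((d + h - 2 : ℕ) : ℤ) / (h : ℤ) := by
    have h2 : ((d + h - 2 : ℕ) : ℤ) = ((d : ℤ) - 2) + 1 * (h : ℤ) := by
      rw [Nat.cast_sub (by omega)]; push_cast; ring
    rw [h2, Int.add_mul_ediv_right _ _ (by omega)]
  rw [h1, ← Int.natCast_div, Int.toNat_natCast]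

theorem v1_ge (n h e : ℕ) (hh : 3 ≤ h) (hn : 1 ≤ n) (he : e ∣ n) : q h e * (n / e) ≤ v1 n h := by
  have h1 : e ∈ n.divisors := Nat.mem_divisors.mpr ⟨he, by omega⟩
  have : ((((e : ℤ) - 2) / (h : ℤ)) + 1).toNat * (n / e) ≤ v1 n h :=
    Finset.le_sup (f := fun d : ℕ => ((((d : ℤ) - 2) / (h : ℤ)) + 1).toNat * (n / d)) h1
  rw [floor_eq h e hh (Nat.pos_of_dvd_of_pos he hn)] at this
  exact this

theorem v1_attained (n h : ℕ) (hh : 3 ≤ h) (hn : 1 ≤ n) :
    ∃ d, d ∣ n ∧ v1 n h = q h d * (n / d) := by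
  have hne : n.divisors.Nonempty := ⟨1, Nat.mem_divisors.mpr ⟨one_dvd n, by omega⟩⟩
  obtain ⟨d, hd, hd2⟩ := Finset.exists_mem_eq_sup n.divisors hne
    (fun d : ℕ => ((((d : ℤ) - 2) / (h : ℤ)) + 1).toNat * (n / d))
  have hdn := (Nat.mem_divisors.mp hd).1
  refine ⟨d, hdn, ?_⟩
  unfold v1
  rw [hd2, floor_eq h d hh (Nat.pos_of_dvd_of_pos hdn hn)]

theorem isMax_of_eq (n h d : ℕ) (hh : 3 ≤ h) (hn : 1 ≤ n) (hd : d ∣ n)
    (heq : q h d * (n / d) = v1 n h) : IsMax n h d := by
  refine ⟨hd, fun e he => ?_⟩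
  have h1 := v1_ge n h e hh hn he
  rw [← heq] at h1
  have h2 : n / e * e = n := Nat.div_mul_cancel he
  have h3 : n / d * d = n := Nat.div_mul_cancel hd
  have h4 : (q h e * (n / e)) * (e * d) ≤ (q h d * (n / d)) * (e * d) := Nat.mul_le_mul_right _ h1
  have h5 : (q h e * (n / e)) * (e * d) = (q h e * d) * n := by
    calc (q h e * (n / e)) * (e * d) = (q h e * d) * (n / e * e) := by ring
      _ = _ := by rw [h2]
  have h6 : (q h d * (n / d)) * (e * d) = (q h d * e) * n := by
    calc (q h d * (n / d)) * (e * d) = (q h d * e) * (n / d * d) := by ring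
      _ = _ := by rw [h3]
  rw [h5, h6] at h4
  exact Nat.le_of_mul_le_mul_right h4 (by omega)

theorem hfold_eq {G : Type*} [AddCommGroup G] [DecidableEq G] (h : ℕ) (A : Finset G) :
    hfold h A = ((h • A : Finset G) : Set G) := by
  ext x
  rw [Finset.mem_coe, Finset.mem_nsmul]
  constructor
  · rintro ⟨f, hf, rfl⟩
    exact ⟨fun i => ⟨f i, hf i⟩, by rw [List.sum_ofFn]⟩
  · rintro ⟨f, hf⟩
    refine ⟨fun i => (f i : G), fun i => (f i).2, ?_⟩
    rw [List.sum_ofFn] at hf
    exact hf

/-- the structure theorem, forward direction -/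
theorem forward {G : Type*} [AddCommGroup G] [Fintype G] [DecidableEq G] (h : ℕ) (hh : 3 ≤ h)
    (hex : ∃ d, d ∣ Fintype.card G ∧ 2 ≤ d % h) (p : ℕ) (hpmax : IsMax (Fintype.card G) h p)
    (A : Finset G) (hA : A.card = v1 (Fintype.card G) h) (hne : h • A ≠ univ) :
    ∃ (φ : G →+ ZMod p) (c : ZMod p), Function.Surjective φ ∧
      ∀ x, x ∈ A ↔ ∃ i : ℕ, i < q h p ∧ φ x = c + i := by
  classical
  set n := Fintype.card G with hn
  have hn1 : 1 ≤ n := Fintype.card_pos
  have hpp := isMax_prime hn1 hh hpmax hex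
  have hpres := isMax_res hn1 hh hpmax hex
  -- A nonempty
  have hq1 : 1 ≤ q h p := by
    unfold q
    rw [Nat.le_div_iff_mul_le (by omega)]
    have := hpp.two_le
    omega
  have hv1 : 1 ≤ v1 n h := by
    have h1 := v1_ge n h p hh hn1 hpmax.1
    have h2 : 1 ≤ n / p := Nat.div_pos (Nat.le_of_dvd hn1 hpmax.1) hpp.pos
    calc 1 = 1 * 1 := rfl
      _ ≤ q h p * (n / p) := Nat.mul_le_mul hq1 h2
      _ ≤ _ := h1
  have hAn : A.Nonempty := by rw [← card_pos]; omega
  -- stabiliser
  set H := stab (h • A) with hH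
  set π : G →+ G ⧸ H := QuotientAddGroup.mk' H with hπ
  have hπ0 : ∀ x, π x = 0 ↔ x ∈ H := by
    intro x
    rw [hπ, QuotientAddGroup.mk'_apply, QuotientAddGroup.eq_zero_iff]
  have hker : (univ.filter (fun x => π x = 0)) = fs H := by
    ext x; simp only [mem_filter, mem_univ, true_and, mem_fs]; exact hπ0 x
  have hπs : Function.Surjective π := QuotientAddGroup.mk'_surjective H
  have hFpos := fs_card_pos H
  set d := Fintype.card (G ⧸ H) with hd
  have hGd : n = d * (fs H).card := by
    have h1 := card_preim π (univ : Finset (G ⧸ H)) (fun t _ => hπs t)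
    rw [hker] at h1
    simpa using h1
  have hdn : d ∣ n := ⟨_, hGd⟩
  have hnd : n / d = (fs H).card := by
    have hdpos : 0 < d := Fintype.card_pos
    rw [hGd]; exact Nat.mul_div_cancel_left _ hdpos
  have hsub : A ⊆ A + fs H := by
    intro x hx
    have := add_mem_add hx (mem_fs.mpr H.zero_mem)
    rwa [add_zero] at this
  have hstabAF : H ≤ stab (A + fs H) := by
    intro g hg
    apply mem_stab_of_forall
    intro x hx
    obtain ⟨a, ha, f, hf, rfl⟩ := mem_add.mp hx
    rw [add_assoc]
    exact add_mem_add ha (mem_fs.mpr (H.add_mem (mem_fs.mp hf) hg))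
  have hcAF : (A + fs H).card = ((A + fs H).image π).card * (fs H).card := by
    have h1 := card_preim π ((A + fs H).image π) (fun t _ => hπs t)
    rw [preim_eq π (A + fs H) (fun x hx => hstabAF ((hπ0 x).mp hx)), hker] at h1
    exact h1
  have hchA : (h • A).card = ((h • A).image π).card * (fs H).card := by
    have h1 := card_preim π ((h • A).image π) (fun t _ => hπs t)
    rw [preim_eq π (h • A) (fun x hx => (hπ0 x).mp hx), hker] at h1
    exact h1
  have hlt : (h • A).card < n := by
    rw [hn]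
    exact Finset.card_lt_univ_of_notMem (x := Classical.choose
      (not_forall.mp (fun hall => hne (eq_univ_iff_forall.mpr hall))))
      (Classical.choose_spec (not_forall.mp (fun hall => hne (eq_univ_iff_forall.mpr hall))))
  have hiter := iter A hAn h H rfl h (by omega) le_rfl
  rw [add_fs_stab (h • A) H le_rfl, hcAF, hchA] at hiter
  rw [hchA, hGd] at hlt
  have hcd : ((h • A).image π).card < d := Nat.lt_of_mul_lt_mul_right hlt
  have haq : ((A + fs H).image π).card ≤ q h d := by
    have h1 : (h * ((A + fs H).image π).card + 1) * (fs H).card ≤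
        (((h • A).image π).card + h) * (fs H).card := by
      calc (h * ((A + fs H).image π).card + 1) * (fs H).card
          = h * (((A + fs H).image π).card * (fs H).card) + (fs H).card := by ring
        _ ≤ ((h • A).image π).card * (fs H).card + h * (fs H).card := hiter
        _ = _ := by ring
    have h2 := Nat.le_of_mul_le_mul_right h1 hFpos
    unfold q
    rw [Nat.le_div_iff_mul_le (by omega), mul_comm]
    omega
  -- equality everywhere
  have hAle : A.card ≤ (A + fs H).card := card_le_card hsub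
  have hle1 : (A + fs H).card ≤ q h d * (n / d) := by
    rw [hnd, hcAF]; exact Nat.mul_le_mul_right _ haq
  have hle2 := v1_ge n h d hh hn1 hdn
  have hAF : A = A + fs H := Finset.eq_of_subset_of_card_le hsub (by omega)
  have hdmax : IsMax n h d := isMax_of_eq n h d hh hn1 hdn (by omega)
  have hdp : d = p := isMax_unique hn1 hh hdmax hpmax hex
  have hcard : (A.image π).card = q h d := by
    have h1 : ((A + fs H).image π).card * (fs H).card = q h d * (fs H).card := by
      rw [← hcAF, ← hnd]; omega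
    rw [← hAF] at h1
    exact Nat.eq_of_mul_eq_mul_right hFpos h1
  -- pass to ZMod p
  have : Fact p.Prime := ⟨hpp⟩
  have hcardQ : Nat.card (G ⧸ H) = p := by rw [Nat.card_eq_fintype_card, ← hd, hdp]
  have : IsAddCyclic (G ⧸ H) := isAddCyclic_of_prime_card hcardQ
  let e0 : ZMod (Nat.card (G ⧸ H)) ≃+ G ⧸ H := zmodAddCyclicAddEquiv inferInstance
  let e1 : ZMod p ≃+ ZMod (Nat.card (G ⧸ H)) := (ZMod.ringEquivCongr hcardQ.symm).toAddEquiv
  let e : ZMod p ≃+ G ⧸ H := e1.trans e0
  let ψ : G →+ ZMod p := (e.symm : G ⧸ H →+ ZMod p).comp π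
  have hψ : ∀ x, ψ x = e.symm (π x) := fun x => rfl
  have hψs : Function.Surjective ψ := by
    intro y
    obtain ⟨x, hx⟩ := hπs (e y)
    exact ⟨x, by rw [hψ, hx, e.symm_apply_apply]⟩
  have hψ0 : ∀ x, ψ x = 0 → x ∈ H := by
    intro x hx
    rw [hψ] at hx
    rw [← hπ0]
    have : e (e.symm (π x)) = e 0 := by rw [hx]
    rwa [e.apply_symm_apply, map_zero] at this
  have hcardB : (A.image ψ).card = q h p := by
    have : A.image ψ = (A.image π).image e.symm := by
      rw [Finset.image_image]; rfl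
    rw [this, card_image_of_injective _ e.symm.injective, hcard, hdp]
  have hAst : H ≤ stab A := by rw [hAF]; exact hstabAF
  have hBne : h • (A.image ψ) ≠ univ := by
    intro hcon
    apply hne
    rw [← Finset.image_nsmul] at hcon
    rw [← preim_eq ψ (h • A) (fun x hx => hψ0 x hx), hcon]
    simp
  have hk : p + 1 ≤ h * (A.image ψ).card := by
    rw [hcardB]
    rcases q_spec h p hh hpp.one_lt.le with ⟨_, h1⟩ | ⟨h1, _⟩
    · have := Nat.mod_lt p (show 0 < h by omega)
      omega
    · omega
  obtain ⟨g, c, hg, hB⟩ := Vosper.key (A.image ψ) h (by omega) hk hBne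
  rw [hcardB] at hB
  refine ⟨(AddMonoidHom.mulLeft g⁻¹).comp ψ, g⁻¹ * c, ?_, ?_⟩
  · intro y
    obtain ⟨x, hx⟩ := hψs (g * y)
    refine ⟨x, ?_⟩
    rw [AddMonoidHom.comp_apply, hx, AddMonoidHom.coe_mulLeft, inv_mul_cancel_left₀ hg]
  · intro x
    have h1 : x ∈ A ↔ ψ x ∈ A.image ψ := by
      conv_lhs => rw [← preim_eq ψ A (fun x hx => hAst (hψ0 x hx))]
      simp only [mem_filter, mem_univ, true_and]
    rw [h1, hB, mem_image]
    constructor
    · rintro ⟨i, hi, hix⟩
      refine ⟨i, mem_range.mp hi, ?_⟩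
      rw [AddMonoidHom.comp_apply, AddMonoidHom.coe_mulLeft, ← hix, mul_add]
      rw [mul_comm (i : ZMod p) g, inv_mul_cancel_left₀ hg]
    · rintro ⟨i, hi, hix⟩
      refine ⟨i, mem_range.mpr hi, ?_⟩
      rw [AddMonoidHom.comp_apply, AddMonoidHom.coe_mulLeft] at hix
      have : g * (g⁻¹ * ψ x) = g * (g⁻¹ * c + i) := by rw [hix]
      rw [mul_inv_cancel_left₀ hg, mul_add, mul_inv_cancel_left₀ hg] at this
      rw [this, mul_comm g]

/-- the converse direction -/
theorem backward {G : Type*} [AddCommGroup G] [Fintype G] [DecidableEq G] (h : ℕ) (hh : 3 ≤ h)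
    (hex : ∃ d, d ∣ Fintype.card G ∧ 2 ≤ d % h) (p : ℕ) (hpmax : IsMax (Fintype.card G) h p)
    (hpv : v1 (Fintype.card G) h = q h p * (Fintype.card G / p))
    (A : Finset G) (φ : G →+ ZMod p) (c : ZMod p) (hφ : Function.Surjective φ)
    (hA : ∀ x, x ∈ A ↔ ∃ i : ℕ, i < q h p ∧ φ x = c + i) :
    A.card = v1 (Fintype.card G) h ∧ hfold h A ≠ Set.univ := by
  classical
  set n := Fintype.card G with hn
  have hn1 : 1 ≤ n := Fintype.card_pos
  have hpp := isMax_prime hn1 hh hpmax hex
  have hpres := isMax_res hn1 hh hpmax hex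
  have : Fact p.Prime := ⟨hpp⟩
  have hp2 := hpp.two_le
  have hqs : h * q h p + p % h = p + h := by
    rcases q_spec h p hh hpp.one_lt.le with ⟨_, h1⟩ | ⟨h1, _⟩
    · exact h1
    · omega
  have hq1 : 1 ≤ q h p := by
    unfold q
    rw [Nat.le_div_iff_mul_le (by omega)]
    omega
  have hqp : q h p ≤ p := by
    by_contra hcon
    have h1 : h * (p + 1) ≤ h * q h p := Nat.mul_le_mul_left _ (by omega)
    have h2 : 3 * (p + 1) ≤ h * (p + 1) := Nat.mul_le_mul_right _ hh
    have h3 : h * (p + 1) = h * p + h := by ring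
    have h4 : 3 * p ≤ h * p := Nat.mul_le_mul_right _ hh
    omega
  constructor
  · set B : Finset (ZMod p) := (range (q h p)).image (fun i : ℕ => c + (i : ZMod p)) with hB
    have hBc : B.card = q h p := by
      rw [hB, card_image_of_injOn, card_range]
      intro i hi j hj hij
      have h1 : ((i : ℕ) : ZMod p) = (j : ℕ) := add_left_cancel hij
      rw [ZMod.natCast_eq_natCast_iff'] at h1
      simp only [coe_range, Set.mem_Iio] at hi hj
      rwa [Nat.mod_eq_of_lt (by omega), Nat.mod_eq_of_lt (by omega)] at h1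
    have hAB : A = univ.filter (fun x => φ x ∈ B) := by
      ext x
      rw [hA x]
      simp only [hB, mem_filter, mem_univ, true_and, mem_image, mem_range]
      constructor
      · rintro ⟨i, hi, hx⟩; exact ⟨i, hi, hx.symm⟩
      · rintro ⟨i, hi, hx⟩; exact ⟨i, hi, hx.symm⟩
    have h1 := card_preim φ B (fun t _ => hφ t)
    have h2 := card_preim φ (univ : Finset (ZMod p)) (fun t _ => hφ t)
    have h3 : n = p * (univ.filter (fun x => φ x = 0)).card := by
      simpa [ZMod.card] using h2
    have h4 : n / p = (univ.filter (fun x => φ x = 0)).card := by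
      conv_lhs => rw [h3]
      exact Nat.mul_div_cancel_left _ hpp.pos
    rw [hpv, h4, hAB, h1, hBc]
  · intro hcon
    obtain ⟨x, hx⟩ := hφ ((h : ZMod p) * c + ((h * (q h p - 1) + 1 : ℕ) : ZMod p))
    have hx1 : x ∈ hfold h A := by rw [hcon]; trivial
    obtain ⟨f, hf, hfx⟩ := hx1
    have hf' : ∀ i, ∃ s : ℕ, s < q h p ∧ φ (f i) = c + s := fun i => (hA _).mp (hf i)
    choose s hs hs2 using hf'
    have h1 : φ x = (h : ZMod p) * c + ((∑ i, s i : ℕ) : ZMod p) := by
      rw [← hfx, map_sum]
      rw [Finset.sum_congr rfl (fun i _ => hs2 i), Finset.sum_add_distrib]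
      simp
    rw [hx] at h1
    have h2 := add_left_cancel h1
    rw [ZMod.natCast_eq_natCast_iff'] at h2
    have h3 : ∑ i, s i ≤ h * (q h p - 1) := by
      calc ∑ i, s i ≤ ∑ _i : Fin h, (q h p - 1) :=
            Finset.sum_le_sum (fun i _ => by have := hs i; omega)
        _ = _ := by simp
    have h4 : h * (q h p - 1) + h = h * q h p := by
      calc h * (q h p - 1) + h = h * ((q h p - 1) + 1) := by ring
        _ = _ := by rw [Nat.sub_add_cancel hq1]
    rw [Nat.mod_eq_of_lt (by omega), Nat.mod_eq_of_lt (by omega)] at h2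
    omega

end Pool.Agent.Helper234.NonSpanning
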