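import Mathlib
import Pool.Agent.Helper549.Kneser
import Pool.Agent.Helper234.NonSpanning

set_option autoImplicit false
set_option linter.unusedSectionVars false

/-! Vosper's theorem in finite abelian groups, for sumsets smaller than the least prime divisor. -/

open scoped Pointwise
open Finset

namespace Pool.Agent.Helper234.VosperG

open Pool.Agent.Helper549.Kneser Pool.Agent.Helper234.NonSpanning

variable {G : Type*} [AddCommGroup G] [Fintype G] [DecidableEq G]

/-- number of exits of `S` in direction `g` -/
def E (g : G) (S : Finset G) : ℕ := (S.filter (fun x => x + g ∉ S)).card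

variable {p : ℕ} (hp : ∀ H : AddSubgroup G, H ≠ ⊥ → p ≤ (fs H).card)

include hp in
theorem cd (A B : Finset G) (hA : A.Nonempty) (hB : B.Nonempty) :
    min p (A.card + B.card - 1) ≤ (A + B).card := by
  by_cases hH : stab (A + B) = ⊥
  · have := kneser_aperiodic A B hA hB hH
    omega
  · have h1 := hp _ hH
    have h2 : (fs (stab (A + B))).card ≤ ((A + B) + fs (stab (A + B))).card :=
      Finset.card_le_card_add_left (hA.add hB)
    rw [add_fs_stab _ _ le_rfl] at h2
    omega

include hp in
theorem cd2 (A B : Finset G) (hA : A.Nonempty) (hB : B.Nonempty) (hne : A + B ≠ univ)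
    (hbig : Fintype.card G < (A + B).card + p) : A.card + B.card ≤ (A + B).card + 1 := by
  by_cases hH : stab (A + B) = ⊥
  · exact kneser_aperiodic A B hA hB hH
  · exfalso
    have h1 := hp _ hH
    have h3 : ((A + B)ᶜ).Nonempty := by
      rw [Finset.nonempty_iff_ne_empty]
      intro h
      exact hne (by rwa [Finset.compl_eq_empty_iff] at h)
    have h4 : stab (A + B) ≤ stab ((A + B)ᶜ) := by
      intro g hg
      apply mem_stab_of_forall
      intro x hx
      rw [mem_compl] at hx ⊢
      exact fun h => hx ((mem_stab.mp hg x).mpr h)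
    have h2 : (fs (stab (A + B))).card ≤ ((A + B)ᶜ + fs (stab (A + B))).card :=
      Finset.card_le_card_add_left h3
    rw [add_fs_stab _ _ h4, card_compl] at h2
    have := card_le_univ (A + B)
    omega

theorem E_compl (g : G) (S : Finset (G)) : E g Sᶜ = E g S := by
  classical
  unfold E
  have h1 : (S.filter (fun x => x + g ∈ S)).card + (S.filter (fun x => x + g ∉ S)).card = S.card :=
    Finset.card_filter_add_card_filter_not (s := S) (fun x => x + g ∈ S)
  have h2 : (univ.filter (fun x => x + g ∈ S)).card = S.card := by
    apply Finset.card_bij (fun x _ => x + g)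
    · intro a ha; simpa using ha
    · intro a _ b _ h; exact add_right_cancel h
    · intro b hb; exact ⟨b - g, by simpa using hb, by simp⟩
  have h3 : (univ.filter (fun x => x + g ∈ S)) =
      (S.filter (fun x => x + g ∈ S)) ∪ (Sᶜ.filter (fun x => x + g ∉ Sᶜ)) := by
    ext x; simp only [mem_filter, mem_univ, true_and, mem_union, mem_compl, not_not]
    tauto
  have h4 : Disjoint (S.filter (fun x => x + g ∈ S)) (Sᶜ.filter (fun x => x + g ∉ Sᶜ)) := by
    rw [Finset.disjoint_left]
    intro x hx hx'
    simp only [mem_filter, mem_compl] at hx hx'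
    exact hx'.1 hx.1
  rw [h3, card_union_of_disjoint h4] at h2
  omega

theorem E_neg (g : G) (S : Finset (G)) : E g (-S) = E g S := by
  classical
  rw [← E_compl g S]
  unfold E
  apply Finset.card_bij (fun x _ => -(x + g))
  · intro a ha
    simp only [mem_filter, Finset.mem_neg', mem_compl, not_not] at ha ⊢
    refine ⟨ha.2, ?_⟩
    have : -(a + g) + g = -a := by abel
    rw [this]; exact ha.1
  · intro a _ b _ h
    have := neg_injective h
    exact add_right_cancel this
  · intro b hb
    refine ⟨-(b + g), ?_, by abel⟩
    simp only [mem_filter, Finset.mem_neg', mem_compl, not_not] at hb ⊢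
    refine ⟨by simpa using hb.2, ?_⟩
    have : -(-(b + g) + g) = b := by abel
    rw [this]; exact hb.1

/-- `S + {0,g}` in terms of exits. -/
theorem card_add_pair (g : G) (S : Finset (G)) :
    (S + {0, g}).card = S.card + E g S := by
  classical
  unfold E
  have : S + {0, g} = S ∪ ((S.filter (fun x => x + g ∉ S)).image (fun x => x + g)) := by
    ext x
    simp only [mem_add, mem_insert, mem_singleton, mem_union, mem_image, mem_filter]
    constructor
    · rintro ⟨y, hy, z, hz, rfl⟩
      rcases hz with rfl | rfl
      · left; simpa using hy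
      · by_cases h : y + z ∈ S
        · left; exact h
        · right; exact ⟨y, ⟨hy, h⟩, rfl⟩
    · rintro (h | ⟨y, ⟨hy, _⟩, rfl⟩)
      · exact ⟨x, h, 0, Or.inl rfl, by simp⟩
      · exact ⟨y, hy, g, Or.inr rfl, rfl⟩
  rw [this, card_union_of_disjoint, card_image_of_injective _ (add_left_injective g)]
  rw [Finset.disjoint_left]
  intro x hx hx'
  simp only [mem_image, mem_filter] at hx'
  obtain ⟨y, ⟨_, hy⟩, rfl⟩ := hx'
  exact hy hx

include hp in
/-- If `A` is a chain, the pair is critical, then `B` is a chain. -/
theorem step1 (A B : Finset (G)) (g : G) (hA : 2 ≤ A.card) (hB : B.Nonempty)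
    (hE : E g A ≤ 1) (hc : (A + B).card + 1 ≤ A.card + B.card) (hlt : (A + B).card < p) :
    E g B ≤ 1 := by
  classical
  set A' := A.filter (fun x => x + g ∈ A) with hA'
  have h1 : A'.card + E g A = A.card :=
    Finset.card_filter_add_card_filter_not (s := A) (fun x => x + g ∈ A)
  have h2 : A'.Nonempty := by
    rw [← Finset.card_pos]; omega
  have h3 : A' + (B + {0, g}) ⊆ A + B := by
    intro x hx
    obtain ⟨a, ha, y, hy, rfl⟩ := mem_add.mp hx
    obtain ⟨b, hb, z, hz, rfl⟩ := mem_add.mp hy
    rw [mem_filter] at ha
    rw [mem_insert, mem_singleton] at hz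
    rcases hz with rfl | rfl
    · rw [add_zero]; exact add_mem_add ha.1 hb
    · have : a + (b + z) = (a + z) + b := by abel
      rw [this]; exact add_mem_add ha.2 hb
  have h4 := card_le_card h3
  have h5 := cd hp A' (B + {0, g}) h2 (hB.add ⟨0, by simp⟩)
  rw [card_add_pair] at h5
  have h6 := h2.card_pos
  have h7 := hB.card_pos
  omega

theorem E_add (X Y : Finset (G)) (g : G) (hX : E g X ≤ 1) (hY : E g Y ≤ 1) :
    E g (X + Y) ≤ 1 := by
  classical
  unfold E at *
  rw [Finset.card_le_one] at *
  intro a ha b hb
  rw [mem_filter] at ha hb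
  obtain ⟨ha1, ha2⟩ := ha
  obtain ⟨hb1, hb2⟩ := hb
  obtain ⟨x1, hx1, y1, hy1, rfl⟩ := mem_add.mp ha1
  obtain ⟨x2, hx2, y2, hy2, rfl⟩ := mem_add.mp hb1
  have e1 : x1 + g ∉ X := fun h => ha2 (by
    have : x1 + y1 + g = (x1 + g) + y1 := by abel
    rw [this]; exact add_mem_add h hy1)
  have e2 : x2 + g ∉ X := fun h => hb2 (by
    have : x2 + y2 + g = (x2 + g) + y2 := by abel
    rw [this]; exact add_mem_add h hy2)
  have e3 : y1 + g ∉ Y := fun h => ha2 (by
    have : x1 + y1 + g = x1 + (y1 + g) := by abel
    rw [this]; exact add_mem_add hx1 h)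
  have e4 : y2 + g ∉ Y := fun h => hb2 (by
    have : x2 + y2 + g = x2 + (y2 + g) := by abel
    rw [this]; exact add_mem_add hx2 h)
  rw [hX x1 (mem_filter.mpr ⟨hx1, e1⟩) x2 (mem_filter.mpr ⟨hx2, e2⟩),
    hY y1 (mem_filter.mpr ⟨hy1, e3⟩) y2 (mem_filter.mpr ⟨hy2, e4⟩)]

include hp in
theorem step1' (D X : Finset G) (g : G) (hD : 2 ≤ D.card) (hX : X.Nonempty)
    (hE : E g D ≤ 1) (hc : (D + X).card + 1 ≤ D.card + X.card) (hne : D + X ≠ univ)
    (hbig : Fintype.card G + 2 ≤ D.card + p) : E g X ≤ 1 := by
  classical
  set D' := D.filter (fun x => x + g ∈ D) with hD'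
  have h1 : D'.card + E g D = D.card :=
    Finset.card_filter_add_card_filter_not (s := D) (fun x => x + g ∈ D)
  have h2 : D'.Nonempty := by
    rw [← Finset.card_pos]; omega
  have h3 : D' + (X + {0, g}) ⊆ D + X := by
    intro x hx
    obtain ⟨a, ha, y, hy, rfl⟩ := mem_add.mp hx
    obtain ⟨b, hb, z, hz, rfl⟩ := mem_add.mp hy
    rw [mem_filter] at ha
    rw [mem_insert, mem_singleton] at hz
    rcases hz with rfl | rfl
    · rw [add_zero]; exact add_mem_add ha.1 hb
    · have : a + (b + z) = (a + z) + b := by abel
      rw [this]; exact add_mem_add ha.2 hb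
  have h4 := card_le_card h3
  have hXn : (X + {0, g}).Nonempty := hX.add ⟨0, by simp⟩
  have h6 : D'.card ≤ (D' + (X + {0, g})).card := Finset.card_le_card_add_right hXn
  have h5 := cd2 hp D' (X + {0, g}) h2 hXn (fun h => hne (by
    rw [← Finset.univ_subset_iff, ← h]; exact h3)) (by omega)
  rw [card_add_pair] at h5
  omega

include hp in
theorem step2 (A B : Finset G) (g : G) (hA : 2 ≤ A.card) (hB : B.Nonempty)
    (hE : E g (A + B) ≤ 1) (hc : (A + B).card + 1 ≤ A.card + B.card)
    (hlt : (A + B).card + 2 ≤ p) (hpn : p ≤ Fintype.card G) :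
    E g A ≤ 1 ∧ E g B ≤ 1 := by
  classical
  have hAn : A.Nonempty := by rw [← card_pos]; omega
  have hD : ((A + B)ᶜ).card = Fintype.card G - (A + B).card := by
    rw [card_compl]
  have hsub : (A + B)ᶜ + (-A) ⊆ Bᶜ := by
    intro x hx
    obtain ⟨d, hd, a, ha, rfl⟩ := mem_add.mp hx
    rw [mem_compl] at hd ⊢
    rw [Finset.mem_neg'] at ha
    intro hb
    apply hd
    have : d = -a + (d + a) := by abel
    rw [this]; exact add_mem_add ha hb
  have h1 := card_le_card hsub
  have h2 : (Bᶜ).card = Fintype.card G - B.card := by rw [card_compl]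
  have h3 : (-A).card = A.card := Finset.card_neg A
  have hBp : B.card ≤ Fintype.card G := Finset.card_le_univ B
  have hBpos := hB.card_pos
  have hEA : E g (-A) ≤ 1 := by
    apply step1' hp ((A + B)ᶜ) (-A) g (by omega) (hAn.neg) (by rw [E_compl]; exact hE)
    · omega
    · intro h
      rw [h, card_univ] at h1
      omega
    · omega
  rw [E_neg] at hEA
  exact ⟨hEA, step1 hp A B g hA hB hEA hc (by omega)⟩

include hp in
/-- **Vosper's theorem**, exit-count form. -/
theorem vosper (hpn : p ≤ Fintype.card G) (n : ℕ) : ∀ (A B : Finset (G)), B.card = n → 2 ≤ A.card → 2 ≤ B.card →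
    (A + B).card + 1 ≤ A.card + B.card → (A + B).card + 2 ≤ p →
    ∃ g : G, g ≠ 0 ∧ E g A ≤ 1 ∧ E g B ≤ 1 := by
  classical
  induction n using Nat.strong_induction_on with
  | _ n ih =>
  intro A B hn hA hB hc hlt
  have hAn : A.Nonempty := by rw [← card_pos]; omega
  have hBn : B.Nonempty := by rw [← card_pos]; omega
  by_cases h2 : B.card = 2
  · obtain ⟨b0, b1, hne, hB2⟩ := Finset.card_eq_two.mp h2
    refine ⟨b1 - b0, sub_ne_zero.mpr hne.symm, ?_, ?_⟩
    · have e1 : (A + {0, b1 - b0}).card = (A + B).card := by
        have : A + B = (A + {0, b1 - b0}).image (fun x => x + b0) := by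
          ext x
          simp only [mem_image, mem_add, hB2, mem_insert, mem_singleton]
          constructor
          · rintro ⟨a, ha, b, hb, rfl⟩
            rcases hb with rfl | rfl
            · exact ⟨a, ⟨a, ha, 0, Or.inl rfl, by abel⟩, rfl⟩
            · exact ⟨a + (b - b0), ⟨a, ha, b - b0, Or.inr rfl, rfl⟩, by abel⟩
          · rintro ⟨y, ⟨a, ha, z, hz, rfl⟩, rfl⟩
            rcases hz with rfl | rfl
            · exact ⟨a, ha, b0, Or.inl rfl, by abel⟩
            · exact ⟨a, ha, b1, Or.inr rfl, by abel⟩
        rw [this, card_image_of_injective _ (add_left_injective b0)]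
      rw [card_add_pair] at e1
      omega
    · have : E (b1 - b0) B ≤ ({b1} : Finset (G)).card := by
        apply card_le_card
        intro x hx
        rw [mem_filter, hB2] at hx
        simp only [mem_insert, mem_singleton] at hx ⊢
        rcases hx.1 with rfl | h
        · exact absurd (Or.inr (by abel)) hx.2
        · exact h
      simpa using this
  · have h3 : 3 ≤ B.card := by omega
    obtain ⟨b0, hb0⟩ := hBn
    by_cases hex : ∃ e ∈ A, 2 ≤ (B.filter (fun b => b + (e - b0) ∈ A)).card ∧
        (B.filter (fun b => b + (e - b0) ∈ A)).card < B.card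
    · obtain ⟨e, he, hl, hu⟩ := hex
      set t := e - b0 with ht
      set B1 := B.filter (fun b => b + t ∈ A) with hB1
      set A1 := A ∪ (B.filter (fun b => b + t ∉ A)).image (fun b => b + t) with hA1
      have hcB : B1.card + (B.filter (fun b => b + t ∉ A)).card = B.card :=
        Finset.card_filter_add_card_filter_not (s := B) (fun b => b + t ∈ A)
      have hcA : A1.card = A.card + (B.filter (fun b => b + t ∉ A)).card := by
        rw [hA1, card_union_of_disjoint, card_image_of_injective _ (add_left_injective t)]
        rw [Finset.disjoint_left]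
        intro x hx hx'
        simp only [mem_image, mem_filter] at hx'
        obtain ⟨y, ⟨_, hy⟩, rfl⟩ := hx'
        exact hy hx
      have hsub : A1 + B1 ⊆ A + B := by
        intro x hx
        obtain ⟨a, ha, b, hb, rfl⟩ := mem_add.mp hx
        rw [hB1, mem_filter] at hb
        rw [hA1, mem_union, mem_image] at ha
        rcases ha with ha | ⟨b', hb', rfl⟩
        · exact add_mem_add ha hb.1
        · rw [mem_filter] at hb'
          have : b' + t + b = (b + t) + b' := by abel
          rw [this]; exact add_mem_add hb.2 hb'.1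
      have hle := card_le_card hsub
      have hB1n : B1.Nonempty := by rw [← card_pos]; omega
      have hA1n : A1.Nonempty := by rw [← card_pos]; omega
      have hcd := cd hp A1 B1 hA1n hB1n
      have heq : A1 + B1 = A + B := by
        apply Finset.eq_of_subset_of_card_le hsub
        omega
      obtain ⟨g, hg, g1, g2⟩ := ih B1.card (by omega) A1 B1 rfl (by omega) hl
        (by rw [heq]; omega) (by rw [heq]; omega)
      have := E_add A1 B1 g g1 g2
      rw [heq] at this
      exact ⟨g, hg, step2 hp A B g hA ⟨b0, hb0⟩ this hc hlt hpn⟩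
    · exfalso
      push Not at hex
      set Z := A.filter (fun e => (B.filter (fun b => b + (e - b0) ∈ A)).card ≤ 1) with hZ
      set Y := A.filter (fun e => ¬ (B.filter (fun b => b + (e - b0) ∈ A)).card ≤ 1) with hY
      have hYZ : Z.card + Y.card = A.card :=
        Finset.card_filter_add_card_filter_not (s := A)
          (fun e => (B.filter (fun b => b + (e - b0) ∈ A)).card ≤ 1)
      -- Y + B - b0 ⊆ A
      have hYB : Y + B ⊆ A.image (fun a => a + b0) := by
        intro x hx
        obtain ⟨e, he, b, hb, rfl⟩ := mem_add.mp hx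
        rw [hY, mem_filter] at he
        have h1 := hex e he.1 (by omega)
        have h2 : B.filter (fun b => b + (e - b0) ∈ A) = B :=
          Finset.eq_of_subset_of_card_le (filter_subset _ _) h1
        rw [← h2, mem_filter] at hb
        rw [mem_image]
        exact ⟨b + (e - b0), hb.2, by abel⟩
      have hYBc := card_le_card hYB
      rw [card_image_of_injective _ (add_left_injective b0)] at hYBc
      -- Z part
      have hZB : Disjoint (Z + B.erase b0) (A.image (fun a => a + b0)) := by
        rw [Finset.disjoint_left]
        intro x hx hx'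
        obtain ⟨e, he, b, hb, rfl⟩ := mem_add.mp hx
        rw [mem_erase] at hb
        rw [mem_image] at hx'
        obtain ⟨a, ha, hab⟩ := hx'
        rw [hZ, mem_filter] at he
        have h1 := Finset.card_le_one.mp he.2 b0
          (mem_filter.mpr ⟨hb0, by simpa using he.1⟩) b
          (mem_filter.mpr ⟨hb.2, by
            have : b + (e - b0) = a := by
              have : a = e + b - b0 := by rw [← hab]; abel
              rw [this]; abel
            rw [this]; exact ha⟩)
        exact hb.1 h1.symm
      have hsub2 : (Z + B.erase b0) ∪ (A.image (fun a => a + b0)) ⊆ A + B := by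
        apply union_subset
        · exact add_subset_add (filter_subset _ _) (erase_subset _ _)
        · intro x hx
          rw [mem_image] at hx
          obtain ⟨a, ha, rfl⟩ := hx
          exact add_mem_add ha hb0
      have hle2 := card_le_card hsub2
      rw [card_union_of_disjoint hZB, card_image_of_injective _ (add_left_injective b0)] at hle2
      have hBe : (B.erase b0).card = B.card - 1 := card_erase_of_mem hb0
      have hBen : (B.erase b0).Nonempty := by rw [← card_pos]; omega
      have hAB : A.card ≤ (A + B).card := by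
        have : A.image (fun a => a + b0) ⊆ A + B := fun x hx => hsub2 (mem_union_right _ hx)
        have := card_le_card this
        rwa [card_image_of_injective _ (add_left_injective b0)] at this
      have hZ1 : Z.card ≤ 1 := by
        by_contra hcon
        have hZn : Z.Nonempty := by rw [← card_pos]; omega
        have := cd hp Z (B.erase b0) hZn hBen
        omega
      have hYn : Y.Nonempty := by rw [← card_pos]; omega
      have := cd hp Y B hYn ⟨b0, hb0⟩
      omega


end Pool.Agent.Helper234.VosperG
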