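import Mathlib
import Pool.Agent.Helper549.Kneser
import Pool.Agent.Helper234.VosperG

set_option autoImplicit false
set_option linter.unusedSectionVars false

open scoped Pointwise
open Finset

namespace Pool.Agent.Helper234.Boundary

open Pool.Agent.Helper549.Kneser Pool.Agent.Helper234.NonSpanning Pool.Agent.Helper234.VosperG

variable {G : Type*} [AddCommGroup G] [Fintype G] [DecidableEq G]
variable {p : ℕ} (hp : ∀ H : AddSubgroup G, H ≠ ⊥ → p ≤ (fs H).card)

include hp in
theorem order_ge (g : G) (hg : g ≠ 0) : p ≤ addOrderOf g := by
  have h1 : AddSubgroup.zmultiples g ≠ ⊥ := by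
    rw [Ne, AddSubgroup.zmultiples_eq_bot]; exact hg
  have h2 := hp _ h1
  have h3 : (fs (AddSubgroup.zmultiples g)).card = addOrderOf g := by
    rw [← Nat.card_zmultiples g, Nat.card_eq_fintype_card]
    rw [Fintype.card_subtype]
    congr 1
  omega

include hp in
/-- explicit progression form of a chain. -/
theorem chain_explicit (g : G) (hg : g ≠ 0) (k : ℕ) : ∀ (S : Finset G), S.card = k →
    1 ≤ k → k < p → E g S ≤ 1 → ∃ c : G, S = (range k).image (fun i : ℕ => c + i • g) := by
  classical
  have hord := order_ge hp g hg
  induction k with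
  | zero => intro S _ h; omega
  | succ k ih =>
    intro S hS _ hk hE
    rcases Nat.eq_zero_or_pos k with rfl | hkpos
    · obtain ⟨c, hc⟩ := card_eq_one.mp hS
      exact ⟨c, by rw [hc]; simp⟩
    · have hSn : S.Nonempty := by rw [← card_pos]; omega
      have hEpos : 0 < E g S := by
        by_contra h0
        have h0 : E g S = 0 := by omega
        have h1 := cd hp S {0, g} hSn ⟨0, by simp⟩
        rw [card_add_pair, card_pair hg.symm] at h1
        omega
      obtain ⟨e, he⟩ := card_pos.mp hEpos
      have huniq : ∀ x ∈ S, x + g ∉ S → x = e := by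
        intro x hx hx'
        exact Finset.card_le_one.mp hE x (mem_filter.mpr ⟨hx, hx'⟩) e he
      rw [mem_filter] at he
      have hE' : E g (S.erase e) ≤ 1 := by
        have : E g (S.erase e) ≤ ({e - g} : Finset G).card := by
          apply card_le_card
          intro x hx
          rw [mem_filter, mem_erase] at hx
          rw [mem_singleton]
          obtain ⟨⟨hxe, hxS⟩, hx2⟩ := hx
          by_contra hne
          apply hx2
          rw [mem_erase]
          refine ⟨fun h => hne (by rw [← h]; abel), ?_⟩
          by_contra h
          exact hxe (huniq x hxS h)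
        simpa using this
      obtain ⟨c, hc⟩ := ih (S.erase e) (by rw [card_erase_of_mem he.1, hS]; rfl) hkpos (by omega) hE'
      refine ⟨c, ?_⟩
      have hnot : c + k • g ∉ S.erase e := by
        rw [hc, mem_image]
        rintro ⟨i, hi, hi2⟩
        rw [mem_range] at hi
        have h1 : i • g = k • g := add_left_cancel hi2
        rw [nsmul_eq_nsmul_iff_modEq] at h1
        have := Nat.ModEq.eq_of_lt_of_lt h1 (by omega) (by omega)
        omega
      have hlast : c + (k - 1) • g ∈ S.erase e := by
        rw [hc, mem_image]
        exact ⟨k - 1, by rw [mem_range]; omega, rfl⟩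
      have hnext : c + (k - 1) • g + g = c + k • g := by
        obtain ⟨j, rfl⟩ : ∃ j, k = j + 1 := ⟨k - 1, by omega⟩
        rw [Nat.add_sub_cancel, succ_nsmul]; abel
      rw [mem_erase] at hlast
      have hin : c + k • g ∈ S := by
        by_contra h
        rw [← hnext] at h
        exact hlast.1 (huniq _ hlast.2 h)
      have hek : c + k • g = e := by
        by_contra h
        exact hnot (mem_erase.mpr ⟨h, hin⟩)
      rw [range_add_one, image_insert, ← hc, hek, insert_erase he.1]

include hp in
theorem multi_lower (A : Finset G) (hA : A.Nonempty) (j : ℕ) (hj : 1 ≤ j) :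
    min p (j * (A.card - 1) + 1) ≤ (j • A).card := by
  have hApos := hA.card_pos
  induction j, hj using Nat.le_induction with
  | base => rw [one_nsmul]; omega
  | succ j hj ih =>
    have h1 := cd hp (j • A) A hA.nsmul hA
    rw [← succ_nsmul] at h1
    have h2 : (j + 1) * (A.card - 1) = j * (A.card - 1) + (A.card - 1) := by ring
    omega

theorem prog_upper (A : Finset G) (c g : G) (m : ℕ) (hA : A = (range m).image
    (fun i : ℕ => c + i • g)) (j : ℕ) :
    j • A ⊆ (range (j * (m - 1) + 1)).image (fun i : ℕ => j • c + i • g) := by
  induction j with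
  | zero =>
    intro x hx
    rw [zero_nsmul, Finset.mem_zero] at hx
    rw [mem_image]
    exact ⟨0, by simp, by simp [hx]⟩
  | succ j ih =>
    rw [succ_nsmul]
    intro x hx
    obtain ⟨y, hy, a, ha, rfl⟩ := mem_add.mp hx
    obtain ⟨i, hi, rfl⟩ := mem_image.mp (ih hy)
    rw [hA] at ha
    obtain ⟨i', hi', rfl⟩ := mem_image.mp ha
    rw [mem_range] at hi hi'
    rw [mem_image]
    refine ⟨i + i', ?_, ?_⟩
    · rw [mem_range]
      have : (j + 1) * (m - 1) = j * (m - 1) + (m - 1) := by ring
      omega
    · rw [succ_nsmul, add_nsmul]; abel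

theorem coset_upper (A : Finset G) (H : AddSubgroup G) (a : G) (hA : ∀ x ∈ A, x - a ∈ H) (j : ℕ) :
    ∀ x ∈ j • A, x - j • a ∈ H := by
  induction j with
  | zero =>
    intro x hx
    rw [zero_nsmul, Finset.mem_zero] at hx
    rw [hx, zero_nsmul, sub_zero]; exact H.zero_mem
  | succ j ih =>
    intro x hx
    rw [succ_nsmul] at hx
    obtain ⟨y, hy, b, hb, rfl⟩ := mem_add.mp hx
    have : y + b - (j + 1) • a = (y - j • a) + (b - a) := by rw [succ_nsmul]; abel
    rw [this]
    exact H.add_mem (ih y hy) (hA b hb)

include hp in
theorem main (hpp : p.Prime) (hpn : p ≤ Fintype.card G) (h m : ℕ) (hh : 3 ≤ h)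
    (hpm : p = h * (m - 1) + 1) (A : Finset G) (hA : A.card = m) :
    (h • A).card = p ↔
      (∃ a g : G, A = (range m).image (fun i : ℕ => a + i • g)) ∨
      (∃ (H : AddSubgroup G) (a : G), (fs H).card = p ∧ ∀ x ∈ A, x - a ∈ H) := by
  classical
  have hp2 := hpp.two_le
  have hm2 : 2 ≤ m := by
    by_contra hcon
    have : m - 1 = 0 := by omega
    rw [this, mul_zero] at hpm
    omega
  have hAn : A.Nonempty := by rw [← card_pos]; omega
  have hlow := multi_lower hp A hAn h (by omega)
  rw [hA, ← hpm, min_self] at hlow
  constructor
  · intro hc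
    by_cases hH : stab (h • A) = ⊥
    · left
      by_cases hmm : m = 2
      · obtain ⟨x, y, hxy, hAxy⟩ := Finset.card_eq_two.mp (hA.trans hmm)
        refine ⟨x, y - x, ?_⟩
        rw [hAxy, hmm]
        ext z
        simp only [mem_insert, mem_singleton, mem_image, mem_range]
        constructor
        · rintro (rfl | rfl)
          · exact ⟨0, by omega, by simp⟩
          · exact ⟨1, by omega, by simp⟩
        · rintro ⟨i, hi, rfl⟩
          have : i = 0 ∨ i = 1 := by omega
          rcases this with rfl | rfl
          · left; simp
          · right; simp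
      · have hm3 : 3 ≤ m := by omega
        have e1 : h • A = 2 • A + (h - 2) • A := by
          rw [← add_nsmul]; congr 1; omega
        have h1 := kneser_aperiodic (2 • A) ((h - 2) • A) hAn.nsmul hAn.nsmul (by
          rw [← e1]; exact hH)
        rw [← e1, hc] at h1
        have h2 := multi_lower hp A hAn (h - 2) (by omega)
        rw [hA] at h2
        have h3 : h * (m - 1) = (h - 2) * (m - 1) + 2 * (m - 1) := by
          rw [← add_mul]; congr 1; omega
        have h4 : (m - 1) ≤ (h - 2) * (m - 1) := Nat.le_mul_of_pos_left _ (by omega)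
        have h5 : (2 • A).card ≤ 2 * (m - 1) + 1 := by omega
        rw [two_nsmul] at h5
        obtain ⟨g, hg, hE, _⟩ := vosper hp hpn A.card A A rfl (by omega) (by omega) (by omega)
          (by omega)
        obtain ⟨c, hc2⟩ := chain_explicit hp g hg m A hA (by omega) (by omega) hE
        exact ⟨c, g, hc2⟩
    · right
      have h1 := hp _ hH
      obtain ⟨a, ha⟩ := hAn
      have ha1 : (h - 1) • a ∈ (h - 1) • A := Finset.nsmul_mem_nsmul ha
      have e1 : h • A = (h - 1) • A + A := by
        rw [← succ_nsmul]; congr 1; omega
      have hy : (h - 1) • a + a ∈ h • A := by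
        rw [e1]; exact add_mem_add ha1 ha
      have hsub : (fs (stab (h • A))).image (fun t => ((h - 1) • a + a) + t) ⊆ h • A := by
        intro z hz
        obtain ⟨t, ht, rfl⟩ := mem_image.mp hz
        exact stab_add (mem_fs.mp ht) hy
      have hci : ((fs (stab (h • A))).image (fun t => ((h - 1) • a + a) + t)).card =
          (fs (stab (h • A))).card := card_image_of_injective _ (add_right_injective _)
      have hle := card_le_card hsub
      have heq : (fs (stab (h • A))).image (fun t => ((h - 1) • a + a) + t) = h • A :=
        Finset.eq_of_subset_of_card_le hsub (by omega)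
      refine ⟨stab (h • A), a, by omega, ?_⟩
      intro x hx
      have hz : (h - 1) • a + x ∈ h • A := by
        rw [e1]; exact add_mem_add ha1 hx
      rw [← heq, mem_image] at hz
      obtain ⟨t, ht, hte⟩ := hz
      have : x - a = t := by
        have h5 : (h - 1) • a + (a + t) = (h - 1) • a + x := by rw [← hte]; abel
        have h6 := add_left_cancel h5
        rw [← h6]; abel
      rw [this]; exact mem_fs.mp ht
  · rintro (⟨a, g, hAP⟩ | ⟨H, a, hHc, hco⟩)
    · have h1 := card_le_card (prog_upper A a g m hAP h)
      have h2 := Finset.card_image_le (s := range (h * (m - 1) + 1))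
        (f := fun i : ℕ => h • a + i • g)
      rw [card_range] at h2
      omega
    · have h1 : h • A ⊆ (fs H).image (fun t => h • a + t) := by
        intro x hx
        rw [mem_image]
        exact ⟨x - h • a, mem_fs.mpr (coset_upper A H a hco h x hx), by abel⟩
      have h2 := card_le_card h1
      have h3 := Finset.card_image_le (s := fs H) (f := fun t => h • a + t)
      omega

end Pool.Agent.Helper234.Boundary
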