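import Pool.Agent.Helper234.NonSpanning

/-!
# Largest non-`h`-spanning subsets of cyclic groups

For `n ≥ 1` and `h ≥ 3` such that `n` has a divisor whose residue modulo `h` is neither `0` nor `1`
(equivalently `v_1(n,h) > n/h`), all sets `A ⊆ ZMod n` of the maximum size `v_1(n,h)` with
`hA ≠ ZMod n` are determined: they are exactly the unions of `⌊(p-2)/h⌋+1` cosets of the subgroup of
index `p` which form an arithmetic progression modulo `p`, where `p` is the unique divisor of `n`
at which the maximum defining `v_1(n,h)` is attained; `p` is prime.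
-/

set_option autoImplicit false

namespace Pool.Agent.Helper234.CyclicNonSpanning

open Pool.Agent.Helper234.NonSpanning Pool.Agent.Helper234.NumMax

theorem result (n : ℕ) [NeZero n] (h : ℕ) (hh : 3 ≤ h) (hex : ∃ d, d ∣ n ∧ 2 ≤ d % h) :
    ∃ p : ℕ, p.Prime ∧ p ∣ n ∧
      v1 n h = ((p - 2) / h + 1) * (n / p) ∧
      (∀ d, d ∣ n → d ≠ p → (((((d : ℤ) - 2) / (h : ℤ)) + 1).toNat) * (n / d) < v1 n h) ∧
      ∀ A : Finset (ZMod n), (A.card = v1 n h ∧ hfold h A ≠ Set.univ) ↔
        ∃ g c : ZMod p, g ≠ 0 ∧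
          ∀ x : ZMod n, x ∈ A ↔ ∃ i : ℕ, i < (p - 2) / h + 1 ∧ (x.val : ZMod p) = c + i * g := by
  classical
  have hn1 : 1 ≤ n := Nat.pos_of_ne_zero (NeZero.ne n)
  obtain ⟨p, hpn, hpv⟩ := v1_attained n h hh hn1
  have hmax : IsMax n h p := isMax_of_eq _ h p hh hn1 hpn hpv.symm
  have hpp := isMax_prime hn1 hh hmax hex
  have hp2 := hpp.two_le
  have hq : q h p = (p - 2) / h + 1 := by
    unfold q
    have : p + h - 2 = (p - 2) + h := by omega
    rw [this, Nat.add_div_right _ (by omega)]
  have hfact : Fact p.Prime := ⟨hpp⟩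
  have hcard : Fintype.card (ZMod n) = n := ZMod.card n
  refine ⟨p, hpp, hpn, by rw [← hq]; exact hpv, ?_, ?_⟩
  · intro d hd hdp
    rw [floor_eq h d hh (Nat.pos_of_dvd_of_pos hd hn1)]
    refine lt_of_le_of_ne (v1_ge _ h d hh hn1 hd) (fun heq => hdp ?_)
    exact isMax_unique hn1 hh (isMax_of_eq _ h d hh hn1 hd heq) hmax hex
  · intro A
    rw [← hq]
    have hcast : ∀ x : ZMod n, (ZMod.castHom hpn (ZMod p)) x = (x.val : ZMod p) := by
      intro x
      rw [ZMod.castHom_apply, ZMod.natCast_val]
    constructor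
    · rintro ⟨h1, h2⟩
      obtain ⟨φ, c, hφ, hA⟩ := forward h hh (by rw [hcard]; exact hex) p
        (by rw [hcard]; exact hmax) A (by rw [hcard]; exact h1) (by
          intro hcon
          apply h2
          rw [hfold_eq, hcon, Finset.coe_univ])
      have hlin : ∀ x : ZMod n, φ x = φ 1 * (x.val : ZMod p) := by
        intro x
        conv_lhs => rw [← ZMod.natCast_zmod_val x]
        rw [← nsmul_one x.val, map_nsmul, nsmul_eq_mul, mul_comm]
      have hu : φ 1 ≠ 0 := by
        intro h0
        obtain ⟨x, hx⟩ := hφ 1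
        rw [hlin, h0, zero_mul] at hx
        exact zero_ne_one hx
      refine ⟨(φ 1)⁻¹, (φ 1)⁻¹ * c, inv_ne_zero hu, ?_⟩
      intro x
      rw [hA x]
      constructor
      · rintro ⟨i, hi, hx⟩
        refine ⟨i, hi, ?_⟩
        rw [hlin] at hx
        have : (φ 1)⁻¹ * (φ 1 * (x.val : ZMod p)) = (φ 1)⁻¹ * (c + i) := by rw [hx]
        rw [inv_mul_cancel_left₀ hu] at this
        rw [this]; ring
      · rintro ⟨i, hi, hx⟩
        refine ⟨i, hi, ?_⟩
        rw [hlin, hx, mul_add, mul_inv_cancel_left₀ hu, mul_comm (i : ZMod p),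
          mul_inv_cancel_left₀ hu]
    · rintro ⟨g, c, hg, hA⟩
      have := backward h hh (by rw [hcard]; exact hex) p (by rw [hcard]; exact hmax)
        (by rw [hcard]; exact hpv) A
        ((AddMonoidHom.mulLeft g⁻¹).comp (ZMod.castHom hpn (ZMod p)).toAddMonoidHom) (g⁻¹ * c)
        (by
          intro y
          obtain ⟨x, hx⟩ := ZMod.castHom_surjective hpn (g * y)
          refine ⟨x, ?_⟩
          change g⁻¹ * (ZMod.castHom hpn (ZMod p)) x = y
          rw [hx, inv_mul_cancel_left₀ hg])
        (by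
          intro x
          rw [hA x]
          constructor
          · rintro ⟨i, hi, hx⟩
            refine ⟨i, hi, ?_⟩
            change g⁻¹ * (ZMod.castHom hpn (ZMod p)) x = _
            rw [hcast, hx, mul_add, mul_comm (i : ZMod p), inv_mul_cancel_left₀ hg]
          · rintro ⟨i, hi, hx⟩
            refine ⟨i, hi, ?_⟩
            change g⁻¹ * (ZMod.castHom hpn (ZMod p)) x = _ at hx
            rw [hcast] at hx
            have : g * (g⁻¹ * (x.val : ZMod p)) = g * (g⁻¹ * c + i) := by rw [hx]
            rw [mul_inv_cancel_left₀ hg, mul_add, mul_inv_cancel_left₀ hg] at this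
            rw [this, mul_comm g])
      rw [hcard] at this
      exact this

end Pool.Agent.Helper234.CyclicNonSpanning
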