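import Mathlib
import Pool.Agent.Helper549.Kneser
import Pool.Agent.Helper234.NonSpanning

set_option autoImplicit false

open scoped Pointwise
open Finset

namespace Pool.Agent.Helper234.ZeroS

open Pool.Agent.Helper549.Kneser Pool.Agent.Helper234.NonSpanning

/-- the sets `0A, 1A, …, sA` are pairwise disjoint -/
def SumFreeUpTo {G : Type*} [AddCommGroup G] (s : ℕ) (A : Finset G) : Prop :=
  ∀ i j : ℕ, i ≤ s → j ≤ s → i ≠ j → Disjoint (hfold i A) (hfold j A)

theorem ofSpan_val {A : Type*} [AddCommGroup A] (a : A) (ha : addOrderOf a ≠ 0) :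
    CharacterModule.ofSpanSingleton a ⟨a, Submodule.mem_span_singleton_self a⟩ =
      (((addOrderOf a : ℚ)⁻¹ : ℚ) : AddCircle (1 : ℚ)) := by
  erw [CharacterModule.ofSpanSingleton, LinearMap.toAddMonoidHom_coe, LinearMap.comp_apply,
     CharacterModule.intSpanEquivQuotAddOrderOf_apply_self, Submodule.liftQSpanSingleton_apply,
    AddMonoidHom.coe_toIntLinearMap, CharacterModule.int.divByNat,
    LinearMap.toSpanSingleton_apply_one]
  rw [if_neg ha]

theorem exists_char {G : Type*} [AddCommGroup G] [Fintype G] (d : ℕ) (hd0 : 0 < d)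
    (hd : d ∣ AddMonoid.exponent G) :
    ∃ (c : G →+ AddCircle (1 : ℚ)) (g : G), addOrderOf (c g) = d ∧
      ∀ x, ∃ m : ℕ, m < d ∧ c x = m • c g := by
  classical
  have : Fact ((0 : ℚ) < 1) := ⟨one_pos⟩
  obtain ⟨g, hg⟩ := AddMonoid.exists_addOrderOf_eq_exponent
    (AddMonoid.ExponentExists.of_finite (G := G))
  have hκ0 : 0 < AddMonoid.exponent G :=
    Nat.pos_of_ne_zero (AddMonoid.ExponentExists.exponent_ne_zero
      (AddMonoid.ExponentExists.of_finite (G := G)))
  obtain ⟨c0, hc0⟩ := CharacterModule.dual_surjective_of_injective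
    (Submodule.subtype (Submodule.span ℤ {g})) (Submodule.injective_subtype _)
    (CharacterModule.ofSpanSingleton g)
  have hv : c0 g = (((addOrderOf g : ℚ)⁻¹ : ℚ) : AddCircle (1 : ℚ)) := by
    rw [← ofSpan_val g (by omega), ← hc0]
    rfl
  obtain ⟨e, he⟩ := hd
  have he0 : 0 < e := by
    rcases Nat.eq_zero_or_pos e with rfl | h
    · rw [mul_zero] at he; omega
    · exact h
  have hcg : (e • c0) g = (((1 : ℚ) / (d : ℕ) : ℚ) : AddCircle (1 : ℚ)) := by
    have h1 : (e • c0) g = e • (c0 g) := rfl
    rw [h1, hv, hg, he, ← AddCircle.coe_nsmul]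
    congr 1
    rw [nsmul_eq_mul]
    push_cast
    have hd' : (d : ℚ) ≠ 0 := by exact_mod_cast hd0.ne'
    have he' : (e : ℚ) ≠ 0 := by exact_mod_cast he0.ne'
    field_simp
  refine ⟨(e • c0 : CharacterModule G), g, ?_, ?_⟩
  · have h2 := AddCircle.addOrderOf_period_div (p := (1 : ℚ)) hd0
    rw [← hcg] at h2
    exact h2
  · intro x
    have h3 : d • ((e • c0) x) = 0 := by
      have h1 : (e • c0) x = e • (c0 x) := rfl
      rw [h1, ← mul_nsmul', ← he, ← map_nsmul, AddMonoid.exponent_nsmul_eq_zero, map_zero]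
    obtain ⟨m, hm, hm2⟩ := (AddCircle.nsmul_eq_zero_iff hd0).mp h3
    refine ⟨m, hm, ?_⟩
    change (e • c0) x = m • ((e • c0) g)
    rw [← hm2, hcg, ← AddCircle.coe_nsmul]
    congr 1
    rw [nsmul_eq_mul]
    ring

theorem mem_hfold_char {G Q : Type*} [AddCommGroup G] [AddCommGroup Q] (c : G →+ Q) (u : Q)
    (A : Finset G) (hA : ∀ x ∈ A, c x = u) (j : ℕ) (x : G) (hx : x ∈ hfold j A) : c x = j • u := by
  obtain ⟨f, hf, rfl⟩ := hx
  rw [map_sum, Finset.sum_congr rfl (fun i _ => hA _ (hf i))]
  simp

theorem lower {G : Type*} [AddCommGroup G] [Fintype G] (s d : ℕ)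
    (hd : d ∣ AddMonoid.exponent G) (h1 : s + 1 ≤ d) :
    ∃ A : Finset G, Fintype.card G ≤ d * A.card ∧ SumFreeUpTo s A := by
  classical
  obtain ⟨c, g, hg, hc⟩ := exists_char d (by omega) hd
  refine ⟨univ.filter (fun x => c x = c g), ?_, ?_⟩
  · have h2 := Finset.card_le_mul_card_image_of_maps_to (s := (univ : Finset G))
      (t := (range d).image (fun m : ℕ => m • c g)) (f := c)
      (fun x _ => by
        obtain ⟨m, hm, hm2⟩ := hc x
        exact mem_image.mpr ⟨m, mem_range.mpr hm, hm2.symm⟩)
      (univ.filter (fun x => c x = c g)).card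
      (fun b hb => by
        obtain ⟨m, _, rfl⟩ := mem_image.mp hb
        apply Finset.card_le_card_of_injOn (fun x => x - m • g + g)
        · intro x hx
          simp only [coe_filter, mem_univ, true_and, Set.mem_ofPred_eq] at hx ⊢
          rw [map_add, map_sub, map_nsmul, hx, sub_self, zero_add]
        · intro x _ y _ hxy
          exact sub_left_injective (add_right_cancel hxy))
    have h3 : ((range d).image (fun m : ℕ => m • c g)).card ≤ d := by
      have := Finset.card_image_le (s := range d) (f := fun m : ℕ => m • c g)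
      rwa [card_range] at this
    rw [card_univ] at h2
    calc Fintype.card G ≤ (univ.filter (fun x => c x = c g)).card *
          ((range d).image (fun m : ℕ => m • c g)).card := h2
      _ ≤ (univ.filter (fun x => c x = c g)).card * d := Nat.mul_le_mul_left _ h3
      _ = _ := mul_comm _ _
  · intro i j hi hj hij
    rw [Set.disjoint_left]
    intro x hx hx'
    have e1 := mem_hfold_char c (c g) _ (fun x hx => (mem_filter.mp hx).2) i x hx
    have e2 := mem_hfold_char c (c g) _ (fun x hx => (mem_filter.mp hx).2) j x hx'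
    apply hij
    have h4 : i • c g = j • c g := by rw [← e1, ← e2]
    rw [nsmul_eq_nsmul_iff_modEq, hg] at h4
    exact Nat.ModEq.eq_of_lt_of_lt h4 (by omega) (by omega)

theorem upper {G : Type*} [AddCommGroup G] [Fintype G] (s d : ℕ) (h1 : s + 1 ≤ d)
    (h2 : 4 * d ≤ (s + 1) * (s + 2)) (hmin : ∀ e, e ∣ AddMonoid.exponent G → s + 1 ≤ e → d ≤ e)
    (A : Finset G) (hA : SumFreeUpTo s A) : d * A.card ≤ Fintype.card G := by
  classical
  rcases A.eq_empty_or_nonempty with rfl | hAn
  · simp
  have hs : 2 ≤ s := by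
    by_contra hcon
    have : s = 0 ∨ s = 1 := by omega
    rcases this with rfl | rfl <;> omega
  have hdis : ∀ i j : ℕ, i ≤ s → j ≤ s → i ≠ j → Disjoint (i • A) (j • A) := by
    intro i j hi hj hij
    have := hA i j hi hj hij
    rw [hfold_eq, hfold_eq] at this
    exact_mod_cast this
  set H := stab (s • A) with hH
  set n := Fintype.card G with hn
  have hFpos := fs_card_pos H
  -- saturated sets are disjoint
  have hlt : ∀ i j : ℕ, i < j → j ≤ s → Disjoint (i • A + fs H) (j • A + fs H) := by
    intro i j hij hj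
    rw [Finset.disjoint_left]
    intro z hz hz'
    obtain ⟨u, hu, f, hf, rfl⟩ := mem_add.mp hz
    obtain ⟨v, hv, f', hf', hz2⟩ := mem_add.mp hz'
    obtain ⟨w, hw⟩ := hAn.nsmul (n := s - j)
    have e1 : w + v ∈ s • A := by
      have : s • A = (s - j) • A + j • A := by rw [← add_nsmul, Nat.sub_add_cancel hj]
      rw [this]; exact add_mem_add hw hv
    have e2 : w + u ∈ ((s - j) + i) • A := by
      rw [add_nsmul]; exact add_mem_add hw hu
    have e3 : w + v + (f' - f) ∈ s • A :=
      stab_add (H.sub_mem (mem_fs.mp hf') (mem_fs.mp hf)) e1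
    have e4 : w + v + (f' - f) = w + u := by
      have : v + f' - f = u := by rw [hz2]; abel
      calc w + v + (f' - f) = w + (v + f' - f) := by abel
        _ = _ := by rw [this]
    rw [e4] at e3
    exact (Finset.disjoint_left.mp (hdis ((s - j) + i) s (by omega) le_rfl (by omega))) e2 e3
  -- sum of cardinalities
  have hsum : ∑ j ∈ range (s + 1), (j • A + fs H).card ≤ n := by
    rw [← card_biUnion]
    · exact card_le_univ _
    · intro i hi j hj hij
      rw [mem_coe, mem_range] at hi hj
      rcases Nat.lt_or_gt_of_ne hij with h | h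
      · exact hlt i j h (by omega)
      · exact (hlt j i h (by omega)).symm
  have hlow : ∀ j ∈ range (s + 1),
      (fs H).card + j * ((A + fs H).card - (fs H).card) ≤ (j • A + fs H).card := by
    intro j hj
    rw [mem_range] at hj
    rcases Nat.eq_zero_or_pos j with rfl | hj0
    · simp
    · have h3 := iter A hAn s H rfl j hj0 (by omega)
      have h4 : (fs H).card ≤ (A + fs H).card := Finset.card_le_card_add_left hAn
      obtain ⟨t, ht⟩ := Nat.exists_eq_add_of_le h4
      rw [ht] at h3 ⊢
      rw [Nat.add_sub_cancel_left]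
      nlinarith
  have hFle : (fs H).card ≤ (A + fs H).card := Finset.card_le_card_add_left hAn
  have htot : 2 * ((s + 1) * (fs H).card) + s * (s + 1) * ((A + fs H).card - (fs H).card) ≤
      2 * n := by
    have h3 := Finset.sum_le_sum hlow
    have h4 : ∑ j ∈ range (s + 1), ((fs H).card + j * ((A + fs H).card - (fs H).card)) =
        (s + 1) * (fs H).card + (∑ j ∈ range (s + 1), j) * ((A + fs H).card - (fs H).card) := by
      rw [Finset.sum_add_distrib, Finset.sum_mul]; simp
    rw [h4] at h3
    have h5 : (∑ j ∈ range (s + 1), j) * 2 = (s + 1) * s := by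
      rw [Finset.sum_range_id_mul_two]; simp
    have h6 : 2 * ((s + 1) * (fs H).card) + s * (s + 1) * ((A + fs H).card - (fs H).card) =
        2 * ((s + 1) * (fs H).card + (∑ j ∈ range (s + 1), j) *
          ((A + fs H).card - (fs H).card)) := by
      have : s * (s + 1) = (∑ j ∈ range (s + 1), j) * 2 := by rw [h5]; ring
      rw [this]; ring
    rw [h6]
    exact Nat.mul_le_mul_left _ (h3.trans hsum)
  have hsub : A ⊆ A + fs H := by
    intro x hx
    have := add_mem_add hx (mem_fs.mpr H.zero_mem)
    rwa [add_zero] at this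
  have hAle := card_le_card hsub
  -- quotient
  set π : G →+ G ⧸ H := QuotientAddGroup.mk' H with hπ
  have hπ0 : ∀ x, π x = 0 ↔ x ∈ H := by
    intro x
    rw [hπ, QuotientAddGroup.mk'_apply, QuotientAddGroup.eq_zero_iff]
  have hker : (univ.filter (fun x => π x = 0)) = fs H := by
    ext x; simp only [mem_filter, mem_univ, true_and, mem_fs]; exact hπ0 x
  have hπs : Function.Surjective π := QuotientAddGroup.mk'_surjective H
  have hGd : n = Fintype.card (G ⧸ H) * (fs H).card := by
    have h1 := card_preim π (univ : Finset (G ⧸ H)) (fun t _ => hπs t)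
    rw [hker] at h1
    simpa using h1
  have hstabAF : H ≤ stab (A + fs H) := by
    intro g hg
    apply mem_stab_of_forall
    intro x hx
    obtain ⟨a, ha, f, hf, rfl⟩ := mem_add.mp hx
    rw [add_assoc]
    exact add_mem_add ha (mem_fs.mpr (H.add_mem (mem_fs.mp hf) hg))
  have hcAF : (A + fs H).card = ((A + fs H).image π).card * (fs H).card := by
    have h1 := card_preim π ((A + fs H).image π) (fun t _ => hπs t)
    rw [preim_eq π (A + fs H) (fun x hx => hstabAF ((hπ0 x).mp hx)), hker] at h1
    exact h1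
  rcases Nat.lt_or_ge ((A + fs H).image π).card 2 with hb | hb
  · -- one coset
    have hb1 : (A + fs H).card ≤ (fs H).card := by
      rw [hcAF]
      calc ((A + fs H).image π).card * (fs H).card ≤ 1 * (fs H).card :=
            Nat.mul_le_mul_right _ (by omega)
        _ = _ := one_mul _
    obtain ⟨a, ha⟩ := hAn
    have hm1 : s + 1 ≤ addOrderOf (π a) := by
      by_contra hcon
      have hmpos : 0 < addOrderOf (π a) := addOrderOf_pos (π a)
      have h3 : addOrderOf (π a) • a ∈ H := by
        rw [← hπ0, map_nsmul, addOrderOf_nsmul_eq_zero]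
      have h4 : addOrderOf (π a) • a ∈ addOrderOf (π a) • A + fs H := by
        have : addOrderOf (π a) • a ∈ addOrderOf (π a) • A := Finset.nsmul_mem_nsmul ha
        have h5 := add_mem_add this (mem_fs.mpr H.zero_mem)
        rwa [add_zero] at h5
      have h5 : addOrderOf (π a) • a ∈ (0 : ℕ) • A + fs H := by
        rw [zero_nsmul, zero_add]; exact mem_fs.mpr h3
      exact (Finset.disjoint_left.mp (hlt 0 _ hmpos (by omega))) h5 h4
    have hm2 : addOrderOf (π a) ∣ AddMonoid.exponent G := by
      rw [addOrderOf_dvd_iff_nsmul_eq_zero, ← map_nsmul, AddMonoid.exponent_nsmul_eq_zero,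
        map_zero]
    have hm3 := hmin _ hm2 hm1
    have hm4 : addOrderOf (π a) ≤ Fintype.card (G ⧸ H) := addOrderOf_le_card_univ
    calc d * A.card ≤ Fintype.card (G ⧸ H) * (fs H).card :=
          Nat.mul_le_mul (hm3.trans hm4) (hAle.trans hb1)
      _ = n := hGd.symm
  · -- at least two cosets
    have hb2 : 2 * (fs H).card ≤ (A + fs H).card := by
      rw [hcAF]; exact Nat.mul_le_mul_right _ hb
    obtain ⟨t, ht⟩ := Nat.exists_eq_add_of_le hb2
    obtain ⟨r, hr⟩ := Nat.exists_eq_add_of_le hs
    have h3 : (A + fs H).card - (fs H).card = (fs H).card + t := by omega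
    rw [h3] at htot
    have h4 : 4 * (d * A.card) ≤ 4 * n := by
      calc 4 * (d * A.card) = (4 * d) * A.card := by ring
        _ ≤ ((s + 1) * (s + 2)) * (A + fs H).card := Nat.mul_le_mul h2 hAle
        _ ≤ 2 * (2 * ((s + 1) * (fs H).card) + s * (s + 1) * ((fs H).card + t)) := by
            rw [ht, hr]
            have : 2 * (2 * ((2 + r + 1) * (fs H).card) +
                (2 + r) * (2 + r + 1) * ((fs H).card + t)) =
                ((2 + r + 1) * (2 + r + 2)) * (2 * (fs H).card + t) + (r + 3) * r * t := by ring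
            rw [this]
            exact Nat.le_add_right _ _
        _ ≤ 2 * (2 * n) := Nat.mul_le_mul_left _ htot
        _ = 4 * n := by ring
    omega

end Pool.Agent.Helper234.ZeroS
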